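import Mathlib

set_option autoImplicit false

/-!
Squares in the field of `2`-adic numbers.
-/

namespace Pool.Agent.Lib.MP_7c08ba_nt

open Polynomial

lemma isSquare_one_add_eight (w : ℤ_[2]) : IsSquare (1 + 8 * w) := by
  set F : ℤ_[2][X] := X ^ 2 + X - C (2 * w) with hF
  have h0 : aeval (0 : ℤ_[2]) F = - (2 * w) := by simp [hF]
  have h1 : aeval (0 : ℤ_[2]) (derivative F) = 1 := by
    simp [hF]
  have h2 : ‖aeval (0 : ℤ_[2]) F‖ < ‖aeval (0 : ℤ_[2]) (derivative F)‖ ^ 2 := by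
    rw [h0, h1, norm_neg, norm_one, one_pow, PadicInt.norm_lt_one_iff_dvd]
    exact ⟨w, by norm_num⟩
  obtain ⟨z, hz, -⟩ := hensels_lemma h2
  refine ⟨1 + 2 * z, ?_⟩
  have h3 : z ^ 2 + z - 2 * w = 0 := by
    have : aeval z F = z ^ 2 + z - 2 * w := by simp [hF]
    rw [← this, hz]
  linear_combination (-4) * h3

lemma exists_two_mul {m : ℚ_[2]} (hm : ‖m‖ < 1) : ∃ w : ℤ_[2], m = 2 * (w : ℚ_[2]) := by
  obtain ⟨m', hm'⟩ : ∃ m' : ℤ_[2], (m' : ℚ_[2]) = m := ⟨⟨m, hm.le⟩, rfl⟩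
  have h1 : ‖m'‖ < 1 := by
    rw [PadicInt.norm_def, hm']
    exact hm
  rw [PadicInt.norm_lt_one_iff_dvd] at h1
  obtain ⟨w, hw⟩ := h1
  refine ⟨w, ?_⟩
  rw [← hm', hw]
  push_cast
  rfl

lemma isSquare_of_split {t m : ℚ_[2]} (ht : 1 ≤ ‖t‖) (hm : ‖m‖ < 1) :
    IsSquare (t ^ 2 - 4 * m) := by
  have ht0 : t ≠ 0 := by
    rintro rfl
    rw [norm_zero] at ht
    linarith
  have h1 : ‖m / t ^ 2‖ < 1 := by
    rw [norm_div, norm_pow]
    have h2 : 1 ≤ ‖t‖ ^ 2 := one_le_pow₀ ht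
    rw [div_lt_one (by linarith)]
    linarith
  obtain ⟨w, hw⟩ := exists_two_mul h1
  obtain ⟨r, hr⟩ := isSquare_one_add_eight (-w)
  refine ⟨t * r, ?_⟩
  have h3 : (r : ℚ_[2]) * r = 1 - 8 * w := by
    have h5 : ((r * r : ℤ_[2]) : ℚ_[2]) = ((1 + 8 * (-w) : ℤ_[2]) : ℚ_[2]) := by rw [hr]
    have h8 : ((8 : ℤ_[2]) : ℚ_[2]) = 8 := map_ofNat (PadicInt.Coe.ringHom (p := 2)) 8
    push_cast at h5
    rw [h5, h8]
    ring
  have h4 : m = t ^ 2 * (2 * w) := by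
    rw [← hw]
    field_simp
  linear_combination (-4) * h4 - t ^ 2 * h3

lemma exists_int_of_sq {β : ℚ_[2]} {α : ℤ_[2]} (h : (α : ℚ_[2]) = β ^ 2) :
    ∃ b : ℤ_[2], (b : ℚ_[2]) = β ∧ α = b ^ 2 := by
  have h1 : ‖β‖ ≤ 1 := by
    have h2 : ‖β‖ ^ 2 ≤ 1 := by
      rw [← norm_pow, ← h]
      exact α.2
    nlinarith [norm_nonneg β]
  refine ⟨⟨β, h1⟩, rfl, ?_⟩
  apply PadicInt.ext
  rw [h]
  rfl

lemma not_isSquare_of_mod {a : ℤ} (ha : a = -1 ∨ a = 2 ∨ a = -2) : ¬ IsSquare (a : ℚ_[2]) := by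
  rintro ⟨β, hβ⟩
  obtain ⟨b, -, hb⟩ := exists_int_of_sq (α := (a : ℤ_[2])) (β := β) (by
    rw [sq, ← hβ]; rfl)
  have h1 := congrArg (PadicInt.toZModPow 3) hb
  rw [map_intCast, map_pow] at h1
  generalize (PadicInt.toZModPow 3) b = c at h1
  have h2 : ∀ c : ZMod (2 ^ 3), c ^ 2 ≠ -1 ∧ c ^ 2 ≠ 2 ∧ c ^ 2 ≠ -2 := by decide
  rcases ha with rfl | rfl | rfl
  · exact (h2 c).1 (by rw [← h1]; push_cast; rfl)
  · exact (h2 c).2.1 (by rw [← h1]; push_cast; rfl)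
  · exact (h2 c).2.2 (by rw [← h1]; push_cast; rfl)

lemma two_dvd_or_isUnit (b : ℤ_[2]) : 2 ∣ b ∨ IsUnit b := by
  rcases lt_or_eq_of_le (PadicInt.norm_le_one b) with h | h
  · left
    rw [PadicInt.norm_lt_one_iff_dvd] at h
    exact_mod_cast h
  · right
    exact PadicInt.isUnit_iff.mpr h

lemma sq_mod_eight {c : ℤ_[2]} (hc : IsUnit c) : (PadicInt.toZModPow 3 c) ^ 2 = 1 := by
  have h1 : IsUnit (PadicInt.toZModPow 3 c) := hc.map _
  obtain ⟨d, hd⟩ := h1.exists_right_inv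
  have h2 : ∀ a b : ZMod (2 ^ 3), a * b = 1 → a ^ 2 = 1 := by decide
  exact h2 _ _ hd

lemma not_two_dvd_one : ¬ (2 : ℤ_[2]) ∣ 1 := by
  intro h
  have h1 := PadicInt.prime_p (p := 2)
  exact h1.not_isUnit (isUnit_of_dvd_one (by exact_mod_cast h))

/-- The final congruence: `x = c ^ 2 + 2 * b ^ 2` with `c` a unit and `z₁ = b * c * unit`. -/
lemma mod_eight_of_eq {x z₁ : ℤ} {b c : ℤ_[2]} (hc : IsUnit c) (hx : (x : ℤ_[2]) = c ^ 2 + 2 * b ^ 2)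
    (hz : (z₁ : ℤ_[2]) = b * c) : (2 ∣ z₁ → x % 8 = 1) ∧ (¬ 2 ∣ z₁ → x % 8 = 3) := by
  have h1 := congrArg (PadicInt.toZModPow 3) hx
  rw [map_intCast, map_add, map_mul, map_pow, sq_mod_eight hc, map_pow] at h1
  have h2 : (PadicInt.toZModPow 3 (2 : ℤ_[2])) = 2 := map_ofNat _ 2
  rw [h2] at h1
  have hp : Prime (2 : ℤ_[2]) := by exact_mod_cast PadicInt.prime_p (p := 2)
  constructor
  · intro h
    have h3 : (2 : ℤ_[2]) ∣ b := by
      have h4 : (2 : ℤ_[2]) ∣ b * c := by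
        rw [← hz]
        obtain ⟨k, rfl⟩ := h
        exact ⟨k, by push_cast; rfl⟩
      rcases hp.dvd_or_dvd h4 with h5 | h5
      · exact h5
      · exact absurd (isUnit_of_dvd_unit h5 hc) hp.not_isUnit
    obtain ⟨b', rfl⟩ := h3
    rw [map_mul, h2] at h1
    have h6 : ∀ a : ZMod (2 ^ 3), 1 + 2 * (2 * a) ^ 2 = 1 := by decide
    rw [h6] at h1
    have h7 : ((x : ℤ) : ZMod (2 ^ 3)) = ((1 : ℤ) : ZMod (2 ^ 3)) := by
      rw [h1]; push_cast; rfl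
    have h8 := (ZMod.intCast_eq_intCast_iff _ _ _).mp h7
    have h9 : x % 8 = 1 % 8 := h8
    omega
  · intro h
    have h3 : IsUnit b := by
      rcases two_dvd_or_isUnit b with h4 | h4
      · exfalso
        apply h
        have h5 : (2 : ℤ_[2]) ^ 1 ∣ (z₁ : ℤ_[2]) := by
          rw [pow_one, hz]
          exact Dvd.dvd.mul_right h4 c
        have h6 := (PadicInt.pow_p_dvd_int_iff (p := 2) 1 z₁).mp (by exact_mod_cast h5)
        simpa using h6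
      · exact h4
    rw [sq_mod_eight h3] at h1
    have h7 : ((x : ℤ) : ZMod (2 ^ 3)) = ((3 : ℤ) : ZMod (2 ^ 3)) := by
      rw [h1]; decide
    have h8 := (ZMod.intCast_eq_intCast_iff _ _ _).mp h7
    have h9 : x % 8 = 3 % 8 := h8
    omega

lemma int_odd_isUnit {x : ℤ} (hx : ¬ 2 ∣ x) (b : ℤ_[2]) : IsUnit ((x : ℤ_[2]) - 2 * b) := by
  rcases two_dvd_or_isUnit ((x : ℤ_[2]) - 2 * b) with h | h
  · exfalso
    apply hx
    have h1 : (2 : ℤ_[2]) ∣ (x : ℤ_[2]) := by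
      have := dvd_add h (dvd_mul_right 2 b)
      simpa using this
    have h5 : (2 : ℤ_[2]) ^ 1 ∣ (x : ℤ_[2]) := by rwa [pow_one]
    have h6 := (PadicInt.pow_p_dvd_int_iff (p := 2) 1 x).mp (by exact_mod_cast h5)
    simpa using h6
  · exact h

/-- If `v` is a unit and `b ^ 2 * v = z ^ 2` with `z ≠ 0`, then `v = c ^ 2` and `z = b * c`. -/
lemma exists_unit_root {b v z : ℤ_[2]} (hv : IsUnit v) (hz : z ≠ 0) (h : b ^ 2 * v = z ^ 2) :
    ∃ c : ℤ_[2], IsUnit c ∧ v = c ^ 2 ∧ z = b * c := by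
  have hb : b ≠ 0 := by
    rintro rfl
    apply hz
    have : z ^ 2 = 0 := by rw [← h]; ring
    exact pow_eq_zero_iff (two_ne_zero) |>.mp this
  have h1 : b ∣ z := by
    have h2 : b ^ 2 ∣ z ^ 2 := ⟨v, h.symm⟩
    exact (IsIntegrallyClosed.pow_dvd_pow_iff two_ne_zero).mp h2
  obtain ⟨c, rfl⟩ := h1
  have h3 : v = c ^ 2 := by
    have h4 : b ^ 2 * v = b ^ 2 * c ^ 2 := by rw [h]; ring
    exact mul_left_cancel₀ (pow_ne_zero 2 hb) h4
  refine ⟨c, ?_, h3, rfl⟩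
  rw [h3] at hv
  exact (isUnit_pow_iff two_ne_zero).mp hv

/-- The two-adic constraint. -/
theorem mod_eight {x z : ℤ} (hx : ¬ 2 ∣ x) (hz : z ≠ 0) (hz2 : 2 ∣ z) {α β : ℤ_[2]}
    (hα : α * (2 * x - α) = 2 * (z : ℤ_[2]) ^ 2) (hβ : α = β ^ 2 ∨ 2 * α = β ^ 2) :
    (4 ∣ z → x % 8 = 1) ∧ (¬ 4 ∣ z → x % 8 = 3) := by
  have hp : Prime (2 : ℤ_[2]) := by exact_mod_cast PadicInt.prime_p (p := 2)
  have h20 : (2 : ℤ_[2]) ≠ 0 := hp.ne_zero
  obtain ⟨z₁, rfl⟩ := hz2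
  have hz₁ : z₁ ≠ 0 := by
    rintro rfl
    simp at hz
  have hz₁' : (z₁ : ℤ_[2]) ≠ 0 := by exact_mod_cast hz₁
  push_cast at hα
  have hgoal : ∀ {b c : ℤ_[2]}, IsUnit c → (x : ℤ_[2]) = c ^ 2 + 2 * b ^ 2 →
      (z₁ : ℤ_[2]) = b * c → (4 ∣ 2 * z₁ → x % 8 = 1) ∧ (¬ 4 ∣ 2 * z₁ → x % 8 = 3) := by
    intro b c h1 h2 h3
    have h4 := mod_eight_of_eq h1 h2 h3
    exact ⟨fun h => h4.1 (by omega), fun h => h4.2 (by omega)⟩
  rcases hβ with hβ | hβ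
  · -- `α = β ^ 2`
    have hb2 : (2 : ℤ_[2]) ∣ β := by
      by_contra hcon
      have h1 : IsUnit β := (two_dvd_or_isUnit β).resolve_left hcon
      have h2 : (2 : ℤ_[2]) ∣ β ^ 2 * β ^ 2 := by
        have h3 : β ^ 2 * β ^ 2 = 2 * (x * β ^ 2 - (2 * z₁) ^ 2) := by
          rw [hβ] at hα
          linear_combination (-1) * hα
        exact ⟨_, h3⟩
      exact hp.not_isUnit (isUnit_of_dvd_unit h2 ((h1.pow 2).mul (h1.pow 2)))
    obtain ⟨b, rfl⟩ := hb2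
    have h1 : b ^ 2 * ((x : ℤ_[2]) - 2 * b ^ 2) = (z₁ : ℤ_[2]) ^ 2 := by
      rw [hβ] at hα
      have h8 : (8 : ℤ_[2]) ≠ 0 := by
        have : (8 : ℤ_[2]) = 2 ^ 3 := by norm_num
        rw [this]
        exact pow_ne_zero 3 h20
      apply mul_left_cancel₀ h8
      linear_combination hα
    obtain ⟨c, hc, hc1, hc2⟩ := exists_unit_root (int_odd_isUnit hx (b ^ 2)) hz₁' h1
    exact hgoal hc (by rw [← hc1]; ring) hc2
  · -- `2 * α = β ^ 2`
    have hb2 : (2 : ℤ_[2]) ∣ β := hp.dvd_of_dvd_pow (Dvd.intro α hβ)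
    obtain ⟨b, rfl⟩ := hb2
    have hα' : α = 2 * b ^ 2 := by
      apply mul_left_cancel₀ h20
      linear_combination hβ
    have h1 : b ^ 2 * ((x : ℤ_[2]) - b ^ 2) = 2 * (z₁ : ℤ_[2]) ^ 2 := by
      rw [hα'] at hα
      have h4 : (4 : ℤ_[2]) ≠ 0 := by
        have : (4 : ℤ_[2]) = 2 ^ 2 := by norm_num
        rw [this]
        exact pow_ne_zero 2 h20
      apply mul_left_cancel₀ h4
      linear_combination hα
    have hbu : IsUnit b := by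
      rcases two_dvd_or_isUnit b with h2 | h2
      · exfalso
        obtain ⟨b', rfl⟩ := h2
        have h3 : (2 * b') ^ 2 * (2 * ((x : ℤ_[2]) - (2 * b') ^ 2)) = (2 * (z₁ : ℤ_[2])) ^ 2 := by
          linear_combination 2 * h1
        have h4 : (2 * b') ∣ (2 * (z₁ : ℤ_[2])) :=
          (IsIntegrallyClosed.pow_dvd_pow_iff two_ne_zero).mp ⟨_, h3.symm⟩
        obtain ⟨c, hc⟩ := h4
        have hb0 : (2 * b') ≠ 0 := by
          intro h0
          rw [h0, zero_mul] at hc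
          exact (mul_ne_zero h20 hz₁') hc
        have h5 : 2 * ((x : ℤ_[2]) - (2 * b') ^ 2) = c ^ 2 := by
          apply mul_left_cancel₀ (pow_ne_zero 2 hb0)
          rw [h3, hc]
          ring
        have h6 : (2 : ℤ_[2]) ∣ c := hp.dvd_of_dvd_pow (Dvd.intro _ h5)
        obtain ⟨d, rfl⟩ := h6
        have h7 : (x : ℤ_[2]) - 2 * (2 * b' ^ 2 + d ^ 2) = 0 := by
          apply mul_left_cancel₀ h20
          linear_combination h5
        have h8 := int_odd_isUnit hx (2 * b' ^ 2 + d ^ 2)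
        rw [h7] at h8
        exact not_isUnit_zero h8
      · exact h2
    obtain ⟨e, he⟩ := hbu.exists_right_inv
    refine hgoal (b := (z₁ : ℤ_[2]) * e) hbu ?_ ?_
    · have h2 : (x : ℤ_[2]) - b ^ 2 = (b * e) ^ 2 * (x - b ^ 2) := by rw [he]; ring
      have h3 : (x : ℤ_[2]) - b ^ 2 = 2 * (z₁ * e) ^ 2 := by
        rw [h2]
        linear_combination e ^ 2 * h1
      linear_combination h3
    · rw [mul_assoc, mul_comm e b, he, mul_one]

/-- The part of the argument over the integers. -/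
lemma int_part {q : ℕ} (h16 : q % 16 = 7) {x y z : ℤ} (hcop : IsCoprime x y)
    (h : x ^ 2 + q * y ^ 2 = 2 * z ^ 2) :
    ¬ 2 ∣ x ∧ z ≠ 0 ∧ 2 ∣ z ∧ (4 ∣ z → x % 8 = 3 ∨ x % 8 = 5) ∧
      (¬ 4 ∣ z → x % 8 = 1 ∨ x % 8 = 7) := by
  obtain ⟨k, hk⟩ : ∃ k : ℤ, (q : ℤ) = 16 * k + 7 := ⟨(q : ℤ) / 16, by omega⟩
  -- `x` is odd
  have hxo : ¬ 2 ∣ x := by
    rintro ⟨a, rfl⟩
    have h1 : ¬ 2 ∣ y := by
      intro hy
      have := hcop.isUnit_of_dvd' (dvd_mul_right 2 a) hy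
      exact absurd this (by decide)
    obtain ⟨b, hb⟩ : ∃ b, y = 2 * b + 1 := ⟨y / 2, by omega⟩
    rw [hk, hb] at h
    have : (4 * a ^ 2 + (16 * k + 7) * (2 * b + 1) ^ 2 - 2 * z ^ 2) % 2 = 1 := by
      have h2 : 4 * a ^ 2 + (16 * k + 7) * (2 * b + 1) ^ 2 - 2 * z ^ 2 =
        2 * (2 * a ^ 2 + 8 * k * (2 * b + 1) ^ 2 + 14 * b ^ 2 + 14 * b + 3 - z ^ 2) + 1 := by ring
      omega
    have h3 : 4 * a ^ 2 + (16 * k + 7) * (2 * b + 1) ^ 2 - 2 * z ^ 2 = 0 := by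
      linear_combination h
    omega
  have hyo : ¬ 2 ∣ y := by
    rintro ⟨b, rfl⟩
    obtain ⟨a, ha⟩ : ∃ a, x = 2 * a + 1 := ⟨x / 2, by omega⟩
    have h2 : 2 * (2 * a ^ 2 + 2 * a + 2 * q * b ^ 2 - z ^ 2) + 1 = 0 := by
      rw [ha] at h
      linear_combination h
    omega
  -- `y ^ 2` is `1` modulo `16`
  have hy8 : y.natAbs % 8 = 1 ∨ y.natAbs % 8 = 7 := by
    set m := y.natAbs with hm
    have hmo : Odd m := by
      rw [hm, Int.natAbs_odd, ← Int.not_even_iff_odd]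
      intro he
      exact hyo he.two_dvd
    have hmod : x ^ 2 ≡ 2 * z ^ 2 [ZMOD (m : ℤ)] := by
      have h1 : (m : ℤ) ∣ y ^ 2 := by
        rw [hm, Int.natCast_natAbs, abs_dvd]
        exact dvd_pow_self y two_ne_zero
      have h2 : 2 * z ^ 2 - x ^ 2 = q * y ^ 2 := by linear_combination -h
      exact (Int.modEq_iff_dvd).mpr (h2 ▸ h1.mul_left _)
    have hxm : Int.gcd x m = 1 := by
      have h3 := Int.isCoprime_iff_gcd_eq_one.mp hcop
      rw [hm]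
      simpa [Int.gcd, Int.natAbs_abs] using h3
    have h1 : jacobiSym (x ^ 2) m = 1 := by
      rw [jacobiSym.pow_left]
      rcases jacobiSym.eq_one_or_neg_one hxm with h3 | h3 <;> rw [h3] <;> norm_num
    rw [jacobiSym.mod_left' hmod, jacobiSym.mul_left, jacobiSym.pow_left] at h1
    have h2 : jacobiSym 2 m = 1 := by
      have hzz : 0 ≤ (jacobiSym z m) ^ 2 := sq_nonneg _
      have := Int.eq_one_or_neg_one_of_mul_eq_one h1
      rcases this with h3 | h3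
      · exact h3
      · rw [h3] at h1
        nlinarith
    rw [jacobiSym.at_two hmo, ZMod.χ₈_nat_eq_if_mod_eight] at h2
    have hm2 : m % 2 = 1 := Nat.odd_iff.mp hmo
    by_cases h3 : m % 8 = 1 ∨ m % 8 = 7
    · exact h3
    · rw [if_neg (by omega), if_neg h3] at h2
      exact absurd h2 (by decide)
  have hy16 : y ^ 2 % 16 = 1 := by
    have h1 : y ^ 2 = (y.natAbs : ℤ) ^ 2 := (Int.natAbs_sq y).symm
    rcases hy8 with h2 | h2
    · obtain ⟨a, ha⟩ : ∃ a : ℤ, (y.natAbs : ℤ) = 8 * a + 1 := ⟨(y.natAbs : ℤ) / 8, by omega⟩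
      rw [h1, ha]
      have : (8 * a + 1) ^ 2 = 16 * (4 * a ^ 2 + a) + 1 := by ring
      omega
    · obtain ⟨a, ha⟩ : ∃ a : ℤ, (y.natAbs : ℤ) = 8 * a + 7 := ⟨(y.natAbs : ℤ) / 8, by omega⟩
      rw [h1, ha]
      have : (8 * a + 7) ^ 2 = 16 * (4 * a ^ 2 + 7 * a + 3) + 1 := by ring
      omega
  obtain ⟨w, hw⟩ : ∃ w, y ^ 2 = 16 * w + 1 := ⟨y ^ 2 / 16, by omega⟩
  have hx16 : x ^ 2 = 2 * z ^ 2 - 7 - 16 * (k * (16 * w + 1) + 7 * w) := by
    rw [hk, hw] at h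
    linear_combination h
  -- `z` is even
  have hz2 : 2 ∣ z := by
    by_contra hcon
    obtain ⟨b, hb⟩ : ∃ b, z = 2 * b + 1 := ⟨z / 2, by omega⟩
    obtain ⟨a, ha⟩ : ∃ a, x = 2 * a + 1 := ⟨x / 2, by omega⟩
    rw [ha, hb] at hx16
    have h1 : a * (a + 1) % 2 = 0 := Int.even_iff.mp (Int.even_mul_succ_self a)
    have h2 : 4 * (a * (a + 1)) - 8 * (b * (b + 1)) + 6 +
      16 * (k * (16 * w + 1) + 7 * w) = 0 := by linear_combination hx16
    omega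
  refine ⟨hxo, ?_, hz2, ?_, ?_⟩
  · rintro rfl
    have h1 : x ^ 2 + q * y ^ 2 = 0 := by rw [h]; ring
    have h2 : x ^ 2 = 0 := by nlinarith [sq_nonneg x, sq_nonneg y, mul_nonneg (Int.natCast_nonneg q) (sq_nonneg y)]
    have h3 : x = 0 := pow_eq_zero_iff two_ne_zero |>.mp h2
    exact hxo (h3 ▸ dvd_zero 2)
  · rintro ⟨b, rfl⟩
    obtain ⟨a, ha⟩ : ∃ a, x = 8 * a + x % 8 := ⟨x / 8, by omega⟩
    have h1 : x % 8 = 1 ∨ x % 8 = 3 ∨ x % 8 = 5 ∨ x % 8 = 7 := by omega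
    set r := x % 8 with hr
    rw [ha] at hx16
    rcases h1 with h1 | h1 | h1 | h1
    · exfalso
      rw [h1] at hx16
      have : 16 * (4 * a ^ 2 + a - 2 * b ^ 2 + (k * (16 * w + 1) + 7 * w)) + 8 = 0 := by
        linear_combination hx16
      omega
    · exact Or.inl h1
    · exact Or.inr h1
    · exfalso
      rw [h1] at hx16
      have : 16 * (4 * a ^ 2 + 7 * a - 2 * b ^ 2 + (k * (16 * w + 1) + 7 * w) + 3) + 8 = 0 := by
        linear_combination hx16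
      omega
  · intro h4
    obtain ⟨b, hb⟩ : ∃ b, z = 4 * b + 2 := ⟨z / 4, by omega⟩
    obtain ⟨a, ha⟩ : ∃ a, x = 8 * a + x % 8 := ⟨x / 8, by omega⟩
    have h1 : x % 8 = 1 ∨ x % 8 = 3 ∨ x % 8 = 5 ∨ x % 8 = 7 := by omega
    set r := x % 8 with hr
    rw [ha, hb] at hx16
    rcases h1 with h1 | h1 | h1 | h1
    · exact Or.inl h1
    · exfalso
      rw [h1] at hx16
      have : 16 * (4 * a ^ 2 + 3 * a - 2 * b ^ 2 - 2 * b + (k * (16 * w + 1) + 7 * w)) + 8 = 0 := by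
        linear_combination hx16
      omega
    · exfalso
      rw [h1] at hx16
      have : 16 * (4 * a ^ 2 + 5 * a - 2 * b ^ 2 - 2 * b + (k * (16 * w + 1) + 7 * w) + 1) + 8 = 0 := by
        linear_combination hx16
      omega
    · exact Or.inr h1

/-- The dyadic contradiction. -/
theorem not_isSquare_dyadic {q : ℕ} (h16 : q % 16 = 7) {x y z : ℤ} (hcop : IsCoprime x y)
    (h : x ^ 2 + q * y ^ 2 = 2 * z ^ 2) {σ : ℚ_[2]} (hσ : σ ^ 2 = -(q : ℚ_[2])) {g : ℚ_[2]}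
    (hg : g = 1 ∨ g = 2 ∨ g = q ∨ g = 2 * q) : ¬ IsSquare (g * (x + y * σ)) := by
  obtain ⟨hxo, hz0, hz2, h4, h4'⟩ := int_part h16 hcop h
  obtain ⟨s, hs, hs2⟩ := exists_int_of_sq (α := (-(q : ℤ_[2]))) (β := σ) (by
    rw [hσ]; push_cast; rfl)
  have hq0 : (q : ℚ_[2]) ≠ 0 := by
    have : q ≠ 0 := by omega
    exact_mod_cast this
  have hσ0 : σ ≠ 0 := by
    rintro rfl
    rw [zero_pow two_ne_zero, eq_comm, neg_eq_zero] at hσ
    exact hq0 hσ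
  -- the two cases of `mod_eight` are contradictory for `x` and for `-x`
  have key : ∀ (e : ℤ), (e = 1 ∨ e = -1) → ∀ β : ℚ_[2],
      ((e : ℚ_[2]) * (x + y * σ) = β ^ 2 ∨ 2 * ((e : ℚ_[2]) * (x + y * σ)) = β ^ 2) → False := by
    intro e he β hβ
    set α : ℤ_[2] := e * (x + y * s) with hα
    have hαc : (α : ℚ_[2]) = e * (x + y * σ) := by
      rw [hα, ← hs]
      push_cast
      rfl
    have he2 : ((e : ℤ_[2])) ^ 2 = 1 := by
      rcases he with rfl | rfl <;> push_cast <;> ring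
    have h1 : α * (2 * ((e * x : ℤ) : ℤ_[2]) - α) = 2 * (z : ℤ_[2]) ^ 2 := by
      have h2 : ((x : ℤ_[2])) ^ 2 + q * (y : ℤ_[2]) ^ 2 = 2 * (z : ℤ_[2]) ^ 2 := by
        exact_mod_cast congrArg (fun t : ℤ => (t : ℤ_[2])) h
      rw [hα]
      push_cast
      linear_combination (e : ℤ_[2]) ^ 2 * h2 + 2 * (z : ℤ_[2]) ^ 2 * he2 + (e : ℤ_[2]) ^ 2 * (y : ℤ_[2]) ^ 2 * hs2
    have h2 : ∃ b : ℤ_[2], α = b ^ 2 ∨ 2 * α = b ^ 2 := by
      rcases hβ with hβ | hβ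
      · obtain ⟨b, -, hb⟩ := exists_int_of_sq (α := α) (β := β) (by rw [hαc, hβ])
        exact ⟨b, Or.inl hb⟩
      · obtain ⟨b, -, hb⟩ := exists_int_of_sq (α := 2 * α) (β := β) (by
          have h8 : ((2 : ℤ_[2]) : ℚ_[2]) = 2 := map_ofNat (PadicInt.Coe.ringHom (p := 2)) 2
          rw [PadicInt.coe_mul, hαc, ← hβ, h8])
        exact ⟨b, Or.inr hb⟩
    obtain ⟨b, hb⟩ := h2
    have hxo' : ¬ 2 ∣ e * x := by
      rcases he with rfl | rfl
      · simpa using hxo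
      · simpa using hxo
    have h3 := mod_eight hxo' hz0 hz2 h1 hb
    by_cases h5 : 4 ∣ z
    · have h6 := h3.1 h5
      have h7 := h4 h5
      rcases he with rfl | rfl <;> omega
    · have h6 := h3.2 h5
      have h7 := h4' h5
      rcases he with rfl | rfl <;> omega
  rintro ⟨β, hβ⟩
  rcases hg with rfl | rfl | rfl | rfl
  · exact key 1 (Or.inl rfl) β (Or.inl (by push_cast; rw [hβ]; ring))
  · exact key 1 (Or.inl rfl) β (Or.inr (by push_cast; rw [one_mul, hβ]; ring))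
  · refine key (-1) (Or.inr rfl) (β / σ) (Or.inl ?_)
    rw [div_pow, sq β, ← hβ, hσ]
    push_cast
    field_simp
  · refine key (-1) (Or.inr rfl) (β / σ) (Or.inr ?_)
    rw [div_pow, sq β, ← hβ, hσ]
    push_cast
    field_simp

end Pool.Agent.Lib.MP_7c08ba_nt
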