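import Mathlib

set_option autoImplicit false

/-!
Arithmetic of imaginary quadratic fields `ℚ(√-q)`.
-/

namespace Pool.Agent.Lib.MP_7c08ba_nt

set_option linter.unusedSectionVars false

open NumberField IsDedekindDomain Module

section

variable {F : Type*} [Field F] [NumberField F] {q : ℕ} (hq0 : 0 < q)
  (hF : finrank ℚ F = 2) {s : F} (hs : s ^ 2 = -(q : F))

include hq0 hs

lemma coords_zero {a b : ℚ} (h : (a : F) + b * s = 0) : a = 0 ∧ b = 0 := by
  have h1 : ((a ^ 2 + q * b ^ 2 : ℚ) : F) = 0 := by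
    push_cast
    linear_combination ((a : F) - b * s) * h + (b : F) ^ 2 * hs
  have h2 : a ^ 2 + q * b ^ 2 = 0 := by exact_mod_cast h1
  have hq' : (0 : ℚ) < q := by exact_mod_cast hq0
  have h3 : b ^ 2 = 0 := by
    nlinarith [sq_nonneg a, sq_nonneg b, mul_nonneg hq'.le (sq_nonneg b)]
  have h4 : b = 0 := pow_eq_zero_iff two_ne_zero |>.mp h3
  have h5 : a ^ 2 = 0 := by rw [h4] at h2; linarith
  exact ⟨pow_eq_zero_iff two_ne_zero |>.mp h5, h4⟩

lemma coords_inj {a b c d : ℚ} (h : (a : F) + b * s = c + d * s) : a = c ∧ b = d := by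
  have h1 : ((a - c : ℚ) : F) + ((b - d : ℚ) : F) * s = 0 := by
    push_cast
    linear_combination h
  obtain ⟨h2, h3⟩ := coords_zero hq0 hs h1
  exact ⟨by linarith, by linarith⟩

lemma linInd : LinearIndependent ℚ ![(1 : F), s] := by
  rw [LinearIndependent.pair_iff]
  intro a b h
  rw [Algebra.smul_def, Algebra.smul_def, mul_one] at h
  exact coords_zero hq0 hs h

include hF

lemma exists_basis : ∃ B : Basis (Fin 2) ℚ F, B 0 = 1 ∧ B 1 = s := by
  refine ⟨basisOfLinearIndependentOfCardEqFinrank (linInd hq0 hs) (by simp [hF]), ?_, ?_⟩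
  · simp
  · simp

lemma exists_coords (u : F) : ∃ a b : ℚ, u = a + b * s := by
  obtain ⟨B, h0, h1⟩ := exists_basis hq0 hF hs
  refine ⟨B.repr u 0, B.repr u 1, ?_⟩
  conv_lhs => rw [← B.sum_repr u]
  rw [Fin.sum_univ_two, h0, h1, Algebra.smul_def, Algebra.smul_def, mul_one]
  rfl

lemma norm_trace (a b : ℚ) : Algebra.norm ℚ ((a : F) + b * s) = a ^ 2 + q * b ^ 2 ∧
    Algebra.trace ℚ F ((a : F) + b * s) = 2 * a := by
  obtain ⟨B, h0, h1⟩ := exists_basis hq0 hF hs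
  have hrep : ∀ c d : ℚ, B.repr ((c : F) + d * s) 0 = c ∧ B.repr ((c : F) + d * s) 1 = d := by
    intro c d
    have h2 : (c : F) + d * s = c • B 0 + d • B 1 := by
      rw [h0, h1, Algebra.smul_def, Algebra.smul_def, mul_one]
      rfl
    rw [h2, map_add, map_smul, map_smul, B.repr_self, B.repr_self]
    simp
  have e0 : ((a : F) + b * s) * B 0 = a + b * s := by rw [h0, mul_one]
  have e1 : ((a : F) + b * s) * B 1 = ((-(q * b) : ℚ) : F) + (a : F) * s := by
    rw [h1]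
    push_cast
    linear_combination (b : F) * hs
  have m00 : Algebra.leftMulMatrix B ((a : F) + b * s) 0 0 = a := by
    rw [Algebra.leftMulMatrix_eq_repr_mul, e0, (hrep _ _).1]
  have m10 : Algebra.leftMulMatrix B ((a : F) + b * s) 1 0 = b := by
    rw [Algebra.leftMulMatrix_eq_repr_mul, e0, (hrep _ _).2]
  have m01 : Algebra.leftMulMatrix B ((a : F) + b * s) 0 1 = -(q * b) := by
    rw [Algebra.leftMulMatrix_eq_repr_mul, e1, (hrep _ _).1]
  have m11 : Algebra.leftMulMatrix B ((a : F) + b * s) 1 1 = a := by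
    rw [Algebra.leftMulMatrix_eq_repr_mul, e1, (hrep _ _).2]
  constructor
  · rw [Algebra.norm_eq_matrix_det B, Matrix.det_fin_two, m00, m01, m10, m11]
    ring
  · rw [Algebra.trace_eq_matrix_trace B, Matrix.trace_fin_two, m00, m11]
    ring

/-- Integral elements are half-integral combinations. -/
lemma exists_int_coords (hq : q.Prime) {z : F} (hz : IsIntegral ℤ z) :
    ∃ A B : ℤ, 2 * z = A + B * s := by
  obtain ⟨a, b, rfl⟩ := exists_coords hq0 hF hs z
  obtain ⟨hN, hT⟩ := norm_trace hq0 hF hs a b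
  have h1 : IsIntegral ℤ (2 * a) := by
    rw [← hT]
    exact Algebra.isIntegral_trace hz
  have h2 : IsIntegral ℤ (a ^ 2 + q * b ^ 2) := by
    rw [← hN]
    exact Algebra.isIntegral_norm ℚ hz
  obtain ⟨A, hA⟩ := IsIntegrallyClosed.isIntegral_iff.mp h1
  obtain ⟨N, hN'⟩ := IsIntegrallyClosed.isIntegral_iff.mp h2
  have hA' : (A : ℚ) = 2 * a := hA
  have hN'' : (N : ℚ) = a ^ 2 + q * b ^ 2 := hN'
  have h3 : IsIntegral ℤ (q * (2 * b)) := by
    have h4 : ((q : ℚ) * (2 * b)) ^ 2 = ((q * (4 * N - A ^ 2) : ℤ) : ℚ) := by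
      push_cast
      rw [hN'', hA']
      ring
    refine IsIntegral.of_pow (n := 2) (by norm_num) ?_
    rw [h4]
    exact isIntegral_algebraMap (R := ℤ) (A := ℚ)
  obtain ⟨C, hC⟩ := IsIntegrallyClosed.isIntegral_iff.mp h3
  have hC' : (C : ℚ) = q * (2 * b) := hC
  have h5 : C ^ 2 = q * (4 * N - A ^ 2) := by
    have : ((C ^ 2 : ℤ) : ℚ) = ((q * (4 * N - A ^ 2) : ℤ) : ℚ) := by
      push_cast
      rw [hC', hN'', hA']
      ring
    exact_mod_cast this
  have h6 : (q : ℤ) ∣ C := (Nat.prime_iff_prime_int.mp hq).dvd_of_dvd_pow ⟨_, h5⟩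
  obtain ⟨B, rfl⟩ := h6
  have h7 : (B : ℚ) = 2 * b := by
    have hq' : (q : ℚ) ≠ 0 := by exact_mod_cast hq0.ne'
    apply mul_left_cancel₀ hq'
    rw [← hC']
    push_cast
    rfl
  refine ⟨A, B, ?_⟩
  have h8 : ((A : ℚ) : F) = ((2 * a : ℚ) : F) := by rw [hA']
  have h9 : ((B : ℚ) : F) = ((2 * b : ℚ) : F) := by rw [h7]
  push_cast at h8 h9
  rw [h8, h9]
  ring

omit hF hq0 in
lemma isIntegral_s : IsIntegral ℤ s := by
  refine IsIntegral.of_pow (n := 2) (by norm_num) ?_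
  rw [hs]
  have h : IsIntegral ℤ (algebraMap ℤ F (-(q : ℤ))) := isIntegral_algebraMap
  simpa using h

/-- Odd primes other than `q` generate radical ideals. -/
lemma dvd_of_dvd_sq (hq : q.Prime) {l : ℕ} (hl : l.Prime) (hl2 : l ≠ 2) (hlq : l ≠ q) {z : 𝓞 F}
    (h : (l : 𝓞 F) ∣ z ^ 2) : (l : 𝓞 F) ∣ z := by
  obtain ⟨w, hw⟩ := h
  obtain ⟨A, B, hAB⟩ := exists_int_coords hq0 hF hs hq z.isIntegral_coe
  obtain ⟨C, D, hCD⟩ := exists_int_coords hq0 hF hs hq w.isIntegral_coe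
  have hw' : (z : F) ^ 2 = l * (w : F) := by
    have := congrArg (fun t : 𝓞 F => (t : F)) hw
    simpa using this
  have h1 : ((A ^ 2 - q * B ^ 2 : ℚ) : F) + ((2 * (A * B) : ℚ) : F) * s =
      ((2 * l * C : ℚ) : F) + ((2 * l * D : ℚ) : F) * s := by
    push_cast
    linear_combination 4 * hw' - (2 * (z : F) + (A + B * s)) * hAB + 2 * (l : F) * hCD -
      (B : F) ^ 2 * hs
  obtain ⟨h2, h3⟩ := coords_inj hq0 hs h1
  have h4 : A ^ 2 - q * B ^ 2 = 2 * l * C := by exact_mod_cast h2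
  have h5 : A * B = l * D := by
    have : (2 * (A * B) : ℤ) = 2 * l * D := by exact_mod_cast h3
    linarith
  have hlp : Prime (l : ℤ) := Nat.prime_iff_prime_int.mp hl
  have hlq' : ¬ (l : ℤ) ∣ q := by
    intro h
    have : l ∣ q := by exact_mod_cast h
    exact hlq ((Nat.prime_dvd_prime_iff_eq hl hq).mp this)
  have h6 : (l : ℤ) ∣ A ∧ (l : ℤ) ∣ B := by
    rcases hlp.dvd_or_dvd (Dvd.intro _ h5.symm) with hA | hB
    · refine ⟨hA, ?_⟩
      have h7 : (l : ℤ) ∣ q * B ^ 2 := by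
        have : (q : ℤ) * B ^ 2 = A ^ 2 - l * (2 * C) := by linear_combination -h4
        rw [this]
        exact dvd_sub (dvd_pow hA two_ne_zero) (dvd_mul_right _ _)
      exact hlp.dvd_of_dvd_pow ((hlp.dvd_or_dvd h7).resolve_left hlq')
    · refine ⟨?_, hB⟩
      have h7 : (l : ℤ) ∣ A ^ 2 := by
        have : A ^ 2 = q * B ^ 2 + l * (2 * C) := by linear_combination h4
        rw [this]
        exact dvd_add (Dvd.dvd.mul_left (dvd_pow hB two_ne_zero) _) (dvd_mul_right _ _)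
      exact hlp.dvd_of_dvd_pow h7
  obtain ⟨⟨A', rfl⟩, ⟨B', rfl⟩⟩ := h6
  obtain ⟨k, hk⟩ : ∃ k, l = 2 * k + 1 := by
    rcases hl.eq_two_or_odd' with h | h
    · exact absurd h hl2
    · exact h
  set s' : 𝓞 F := ⟨s, isIntegral_s hs⟩ with hs'
  refine ⟨z - k * (A' + B' * s'), ?_⟩
  apply RingOfIntegers.ext
  have h8 : ((l : F)) = 2 * k + 1 := by
    rw [hk]
    push_cast
    ring
  simp only [map_mul, map_sub, map_add, map_natCast, map_intCast]
  have h9 : algebraMap (𝓞 F) F s' = s := rfl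
  push_cast at hAB
  rw [h9]
  rw [h8] at hAB ⊢
  linear_combination (-(k : F)) * hAB

/-- For an element not divisible by `l` there is a prime above `l` not containing it. -/
lemma exists_prime_not_mem (hq : q.Prime) {l : ℕ} (hl : l.Prime) (hl2 : l ≠ 2) (hlq : l ≠ q)
    {z : 𝓞 F} (h : ¬ (l : 𝓞 F) ∣ z) :
    ∃ v : HeightOneSpectrum (𝓞 F), (l : 𝓞 F) ∈ v.asIdeal ∧ z ∉ v.asIdeal := by
  have h1 : z ∉ (Ideal.span {(l : 𝓞 F)}).radical := by
    have h2 : (Ideal.span {(l : 𝓞 F)}).IsRadical := by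
      rw [Ideal.isRadical_iff_pow_one_lt 2 one_lt_two]
      intro r hr
      rw [Ideal.mem_span_singleton] at hr ⊢
      exact dvd_of_dvd_sq hq0 hF hs hq hl hl2 hlq hr
    rw [h2.radical, Ideal.mem_span_singleton]
    exact h
  rw [Ideal.radical_eq_sInf, Submodule.mem_sInf] at h1
  push Not at h1
  obtain ⟨J, ⟨hJ1, hJ2⟩, hJ3⟩ := h1
  have hlJ : (l : 𝓞 F) ∈ J := hJ1 (Ideal.mem_span_singleton_self _)
  refine ⟨⟨J, hJ2, ?_⟩, hlJ, hJ3⟩
  rintro rfl
  rw [Ideal.mem_bot] at hlJ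
  exact hl.ne_zero (by exact_mod_cast hlJ)

/-- Odd primes other than `q` are unramified. -/
lemma not_isSquare_valuation (hq : q.Prime) {l : ℕ} (hl : l.Prime) (hl2 : l ≠ 2) (hlq : l ≠ q)
    (v : HeightOneSpectrum (𝓞 F)) (hv : (l : 𝓞 F) ∈ v.asIdeal) :
    ¬ IsSquare (v.valuation F (l : F)) := by
  have hl0 : (l : 𝓞 F) ≠ 0 := by exact_mod_cast hl.ne_zero
  have hcast : v.valuation F (l : F) = v.intValuation (l : 𝓞 F) := by
    rw [← v.valuation_of_algebraMap (K := F)]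
    congr 1
  rw [hcast]
  rintro ⟨γ, hγ⟩
  have h1 : v.intValuation (l : 𝓞 F) < 1 := (v.intValuation_lt_one_iff_mem _).mpr hv
  have h2 : v.intValuation (l : 𝓞 F) ≤ WithZero.exp (-((2 : ℕ) : ℤ)) := by
    rw [hγ] at h1 ⊢
    have hγ0 : γ ≠ 0 := by
      rintro rfl
      exact v.intValuation_ne_zero _ hl0 (by rw [hγ, mul_zero])
    have h3 : γ < 1 := by
      by_contra hcon
      exact absurd h1 (not_lt.mpr (one_le_mul (not_lt.mp hcon) (not_lt.mp hcon)))
    have h4 : γ ≤ WithZero.exp (-1 : ℤ) := by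
      rw [← WithZero.exp_log hγ0] at h3 ⊢
      rw [← WithZero.exp_zero, WithZero.exp_lt_exp] at h3
      rw [WithZero.exp_le_exp]
      omega
    calc γ * γ ≤ WithZero.exp (-1 : ℤ) * WithZero.exp (-1 : ℤ) := mul_le_mul' h4 h4
      _ = WithZero.exp (-((2 : ℕ) : ℤ)) := by
        rw [← WithZero.exp_add]
        norm_num
  rw [v.intValuation_le_pow_iff_dvd] at h2
  obtain ⟨J, hJ⟩ := h2
  have hJ0 : J ≠ 0 := by
    rintro rfl
    rw [mul_zero] at hJ
    exact hl0 (Ideal.span_singleton_eq_bot.mp hJ)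
  have hv0 : v.asIdeal ≠ 0 := v.ne_bot
  have h3 : v.asIdeal * J ≤ v.asIdeal ^ 2 * J := by
    rw [← hJ]
    intro z hz
    rw [Ideal.mem_span_singleton]
    apply dvd_of_dvd_sq hq0 hF hs hq hl hl2 hlq
    rw [← Ideal.mem_span_singleton, hJ]
    have h4 : z ^ 2 ∈ (v.asIdeal * J) ^ 2 := Ideal.pow_mem_pow hz 2
    have h5 : (v.asIdeal * J) ^ 2 ≤ v.asIdeal ^ 2 * J := by
      rw [mul_pow, sq J, ← mul_assoc]
      exact Ideal.mul_le_left
    exact h5 h4
  obtain ⟨C, hC⟩ := Ideal.dvd_iff_le.mpr h3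
  have h6 : v.asIdeal * J * 1 = v.asIdeal * J * (v.asIdeal * C) := by
    rw [mul_one]
    conv_lhs => rw [hC]
    ring
  have h7 := mul_left_cancel₀ (mul_ne_zero hv0 hJ0) h6
  have h8 : v.asIdeal = ⊤ := by
    rw [eq_top_iff, ← Ideal.one_eq_top, h7]
    exact Ideal.mul_le_left
  exact v.isPrime.ne_top h8

/-- Every non-zero element is a squarefree integer times a primitive element times a square. -/
lemma exists_primitive {u : F} (hu : u ≠ 0) : ∃ (g : ℕ) (x y : ℤ) (r : ℚ), Squarefree g ∧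
    IsCoprime x y ∧ r ≠ 0 ∧ u = g * (x + y * s) * (r : F) ^ 2 := by
  obtain ⟨a, b, hab⟩ := exists_coords hq0 hF hs u
  set D : ℕ := a.den * b.den with hD
  have hD0 : 0 < D := Nat.mul_pos a.den_pos b.den_pos
  set A : ℤ := a.num * b.den with hA
  set B : ℤ := b.num * a.den with hB
  have hA' : (A : ℚ) = D * a := by
    rw [hA, hD]
    push_cast
    have := Rat.mul_den_eq_num a
    linear_combination (-(b.den : ℚ)) * this
  have hB' : (B : ℚ) = D * b := by
    rw [hB, hD]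
    push_cast
    have := Rat.mul_den_eq_num b
    linear_combination (-(a.den : ℚ)) * this
  have hDq : (D : ℚ) ≠ 0 := by exact_mod_cast hD0.ne'
  have hAB : ¬ (A = 0 ∧ B = 0) := by
    rintro ⟨h1, h2⟩
    rw [h1, Int.cast_zero, eq_comm, mul_eq_zero] at hA'
    rw [h2, Int.cast_zero, eq_comm, mul_eq_zero] at hB'
    apply hu
    rw [hab, hA'.resolve_left hDq, hB'.resolve_left hDq]
    simp
  have hg : 0 < Int.gcd A B := by
    rw [Nat.pos_iff_ne_zero, Ne, Int.gcd_eq_zero_iff]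
    exact hAB
  obtain ⟨x, y, hxy, hx, hy⟩ := Int.exists_gcd_one hg
  set h := Int.gcd A B with hh
  obtain ⟨g, m, hgm, hsq⟩ := Nat.sq_mul_squarefree (h * D)
  have hm0 : m ≠ 0 := by
    rintro rfl
    have : h * D = 0 := by rw [← hgm]; ring
    exact (Nat.mul_pos hg hD0).ne' this
  refine ⟨g, x, y, (m : ℚ) / D, hsq, Int.isCoprime_iff_gcd_eq_one.mpr hxy,
    div_ne_zero (by exact_mod_cast hm0) hDq, ?_⟩
  have e1 : (D : F) ≠ 0 := by exact_mod_cast hD0.ne'
  have e2 : ((A : ℚ) : F) = ((D * a : ℚ) : F) := by rw [hA']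
  have e3 : ((B : ℚ) : F) = ((D * b : ℚ) : F) := by rw [hB']
  have e4 : ((m : F)) ^ 2 * g = h * D := by exact_mod_cast hgm
  have e5 : ((A : F)) = x * h := by exact_mod_cast congrArg (fun t : ℤ => (t : F)) hx
  have e6 : ((B : F)) = y * h := by exact_mod_cast congrArg (fun t : ℤ => (t : F)) hy
  push_cast at e2 e3 ⊢
  rw [div_pow]
  field_simp
  rw [hab]
  linear_combination (-(D : F)) * e2 - (D : F) * s * e3 + (D : F) * e5 + (D : F) * s * e6 +
    ((x : F) + y * s) * (-e4)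

end

end Pool.Agent.Lib.MP_7c08ba_nt
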