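import Mathlib
import Pool.Agent.Lib.MP_7c08ba_nt.Quad
import Pool.Agent.Lib.MP_7c08ba_nt.Dyadic

set_option autoImplicit false

/-!
Elements of `ℚ(√-q)`, `q ≡ 7 (mod 16)`, of even valuation away from `2` and locally a square at
one place above `2` are squares.
-/

namespace Pool.Agent.Lib.MP_7c08ba_nt

set_option linter.unusedSectionVars false

open NumberField IsDedekindDomain Module

section

variable {F : Type*} [Field F] [NumberField F] {q : ℕ} (hq0 : 0 < q)
  (hF : finrank ℚ F = 2) {s : F} (hs : s ^ 2 = -(q : F)) (hq : q.Prime)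

include hq0 hF hs hq

/-- The squarefree part divides `2 * q`. -/
lemma squarefree_part_dvd {u : F} {g : ℕ} {x y : ℤ} {r : ℚ} (hg : Squarefree g)
    (hxy : IsCoprime x y) (hr : r ≠ 0) (hu : u = g * (x + y * s) * (r : F) ^ 2)
    (hev : ∀ v : HeightOneSpectrum (𝓞 F), (2 : 𝓞 F) ∉ v.asIdeal → IsSquare (v.valuation F u)) :
    g ∣ 2 * q := by
  have key : ∀ l : ℕ, l.Prime → l ∣ g → l = 2 ∨ l = q := by
    intro l hl hlg
    by_contra hcon
    push Not at hcon
    obtain ⟨hl2, hlq⟩ := hcon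
    obtain ⟨k, hk⟩ : ∃ k, l = 2 * k + 1 := by
      rcases hl.eq_two_or_odd' with h | h
      · exact absurd h hl2
      · exact h
    set s' : 𝓞 F := ⟨s, isIntegral_s hs⟩ with hs'
    have hs'F : (s' : F) = s := rfl
    have hnd : ¬ (l : 𝓞 F) ∣ ((x : 𝓞 F) + y * s') := by
      rintro ⟨w, hw⟩
      obtain ⟨C, D, hCD⟩ := exists_int_coords hq0 hF hs hq w.isIntegral_coe
      have hw' : (x : F) + y * s = l * (w : F) := by
        have := congrArg (fun t : 𝓞 F => (t : F)) hw
        simpa [hs'F] using this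
      have h1 : ((2 * x : ℚ) : F) + ((2 * y : ℚ) : F) * s =
          ((l * C : ℚ) : F) + ((l * D : ℚ) : F) * s := by
        push_cast
        linear_combination 2 * hw' + (l : F) * hCD
      obtain ⟨h2, h3⟩ := coords_inj hq0 hs h1
      have h4 : 2 * x = l * C := by exact_mod_cast h2
      have h5 : 2 * y = l * D := by exact_mod_cast h3
      have hlp : Prime (l : ℤ) := Nat.prime_iff_prime_int.mp hl
      have hl2' : ¬ (l : ℤ) ∣ 2 := by
        intro h
        have : l ∣ 2 := by exact_mod_cast h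
        exact hl2 ((Nat.prime_dvd_prime_iff_eq hl Nat.prime_two).mp this)
      have h6 : (l : ℤ) ∣ x := (hlp.dvd_or_dvd (Dvd.intro _ h4.symm)).resolve_left hl2'
      have h7 : (l : ℤ) ∣ y := (hlp.dvd_or_dvd (Dvd.intro _ h5.symm)).resolve_left hl2'
      exact hlp.not_isUnit (hxy.isUnit_of_dvd' h6 h7)
    obtain ⟨v, hv1, hv2⟩ := exists_prime_not_mem hq0 hF hs hq hl hl2 hlq hnd
    have h1v : (1 : 𝓞 F) ∉ v.asIdeal := fun h => v.isPrime.ne_top ((Ideal.eq_top_iff_one _).mpr h)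
    have h2v : (2 : 𝓞 F) ∉ v.asIdeal := by
      intro h
      apply h1v
      have h3 : (1 : 𝓞 F) = (l : 𝓞 F) - k * 2 := by
        rw [hk]
        push_cast
        ring
      rw [h3]
      exact v.asIdeal.sub_mem hv1 (v.asIdeal.mul_mem_left _ h)
    obtain ⟨g', rfl⟩ := hlg
    have hg'l : Nat.Coprime l g' := by
      rw [Nat.coprime_comm]
      exact (Nat.squarefree_mul_iff.mp hg).1.symm
    have hg'v : (g' : 𝓞 F) ∉ v.asIdeal := by
      intro h
      apply h1v
      obtain ⟨a, b, hab⟩ := (Nat.isCoprime_iff_coprime.mpr hg'l)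
      have h3 : (1 : 𝓞 F) = a * (l : 𝓞 F) + b * (g' : 𝓞 F) := by
        exact_mod_cast (congrArg (fun t : ℤ => (t : 𝓞 F)) hab).symm
      rw [h3]
      exact v.asIdeal.add_mem (v.asIdeal.mul_mem_left _ hv1) (v.asIdeal.mul_mem_left _ h)
    have e1 : v.valuation F (g' : F) = 1 := by
      have := (v.valuation_eq_one_iff_notMem (K := F)).mpr hg'v
      simpa using this
    have e2 : v.valuation F ((x : F) + y * s) = 1 := by
      have := (v.valuation_eq_one_iff_notMem (K := F)).mpr hv2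
      simpa [hs'F] using this
    have e3 : v.valuation F (r : F) ≠ 0 := by
      rw [Valuation.ne_zero_iff]
      exact_mod_cast hr
    apply not_isSquare_valuation hq0 hF hs hq hl hl2 hlq v hv1
    obtain ⟨γ, hγ⟩ := hev v h2v
    rw [hu, map_mul, map_mul, e2, mul_one, Nat.cast_mul, map_mul, e1, mul_one, map_pow] at hγ
    refine ⟨γ * (v.valuation F (r : F))⁻¹, ?_⟩
    rw [mul_mul_mul_comm, ← hγ, ← mul_inv, ← sq, mul_inv_cancel_right₀ (pow_ne_zero 2 e3)]
  rw [← Nat.prod_primeFactors_of_squarefree hg]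
  have h1 : g.primeFactors ⊆ {2, q} := by
    intro l hl
    have := key l (Nat.prime_of_mem_primeFactors hl) (Nat.dvd_of_mem_primeFactors hl)
    simpa using this
  have h2 : (∏ p ∈ ({2, q} : Finset ℕ), p) ∣ 2 * q := by
    by_cases h : (2 : ℕ) = q
    · rw [← h]
      decide
    · rw [Finset.prod_pair h]
  exact (Finset.prod_dvd_prod_of_subset _ _ _ h1).trans h2

/-- The numbers of the form `2 ^ m * k ^ 2`. -/
def TwoSq (N : ℕ) : Prop := ∃ m k : ℕ, N = 2 ^ m * k ^ 2

omit hq0 hF hs hq in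
/-- The norm of an integral element of even valuation away from `2`. -/
lemma absNorm_twoSq {w : 𝓞 F} (hw : w ≠ 0)
    (hev : ∀ v : HeightOneSpectrum (𝓞 F), (2 : 𝓞 F) ∉ v.asIdeal →
      IsSquare (v.intValuation w)) : TwoSq (Ideal.absNorm (Ideal.span {w})) := by
  have hspan : Ideal.span {w} ≠ 0 := by
    rw [Ne, Ideal.zero_eq_bot, Ideal.span_singleton_eq_bot]
    exact hw
  rw [← Ideal.finprod_heightOneSpectrum_factorization hspan]
  refine finprod_induction (fun I : Ideal (𝓞 F) => TwoSq (Ideal.absNorm I)) ?_ ?_ ?_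
  · exact ⟨0, 1, by simp⟩
  · rintro I J ⟨m, k, h1⟩ ⟨m', k', h2⟩
    refine ⟨m + m', k * k', ?_⟩
    rw [map_mul, h1, h2]
    ring
  · intro v
    rw [HeightOneSpectrum.maxPowDividing, map_pow]
    set e := (Associates.mk v.asIdeal).count (Associates.mk (Ideal.span {w})).factors with he
    by_cases h2 : (2 : 𝓞 F) ∈ v.asIdeal
    · have h3 : Ideal.absNorm v.asIdeal ∣ 2 ^ finrank ℤ (𝓞 F) := by
        have h4 := Ideal.absNorm_dvd_absNorm_of_le
          ((Ideal.span_singleton_le_iff_mem (I := v.asIdeal)).mpr h2)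
        have h5 : Ideal.absNorm (Ideal.span {(2 : 𝓞 F)}) = 2 ^ finrank ℤ (𝓞 F) := by
          exact_mod_cast Ideal.absNorm_span_natCast (S := 𝓞 F) 2
        rwa [h5] at h4
      obtain ⟨i, -, hi⟩ := (Nat.dvd_prime_pow Nat.prime_two).mp h3
      refine ⟨i * e, 1, ?_⟩
      rw [hi, one_pow, mul_one, pow_mul]
    · obtain ⟨γ, hγ⟩ := hev v h2
      rw [v.intValuation_if_neg hw] at hγ
      have hγ0 : γ ≠ 0 := by
        rintro rfl
        rw [mul_zero] at hγ
        exact WithZero.exp_ne_zero hγ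
      have h3 : -(e : ℤ) = WithZero.log γ + WithZero.log γ := by
        rw [← WithZero.exp_log hγ0, ← WithZero.exp_add] at hγ
        exact WithZero.exp_injective hγ
      obtain ⟨k, hk⟩ : ∃ k, e = 2 * k := ⟨e / 2, by omega⟩
      refine ⟨0, Ideal.absNorm v.asIdeal ^ k, ?_⟩
      rw [hk, pow_zero, one_mul, ← pow_mul, mul_comm k 2]

omit [NumberField F] hq0 hF hs hq in
/-- Integer part of the norm computation. -/
lemma sq_or_two_sq {g N : ℕ} (hg : 0 < g) (h : TwoSq (g ^ 2 * N)) :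
    (∃ T : ℕ, N = T ^ 2) ∨ ∃ T : ℕ, N = 2 * T ^ 2 := by
  obtain ⟨m, k, hmk⟩ := h
  rcases Nat.even_or_odd' m with ⟨j, rfl | rfl⟩
  · left
    have h1 : g ^ 2 * N = (2 ^ j * k) ^ 2 := by
      rw [hmk]
      ring
    obtain ⟨T, hT⟩ := (Nat.pow_dvd_pow_iff two_ne_zero).mp (Dvd.intro N h1)
    refine ⟨T, ?_⟩
    have h2 : g ^ 2 * N = g ^ 2 * T ^ 2 := by rw [h1, hT]; ring
    exact Nat.eq_of_mul_eq_mul_left (by positivity) h2
  · right
    have h1 : g ^ 2 * (2 * N) = (2 ^ (j + 1) * k) ^ 2 := by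
      have : g ^ 2 * (2 * N) = 2 * (g ^ 2 * N) := by ring
      rw [this, hmk]
      ring
    obtain ⟨T, hT⟩ := (Nat.pow_dvd_pow_iff two_ne_zero).mp (Dvd.intro _ h1)
    have h2 : 2 * N = T ^ 2 := by
      have h2 : g ^ 2 * (2 * N) = g ^ 2 * T ^ 2 := by rw [h1, hT]; ring
      exact Nat.eq_of_mul_eq_mul_left (by positivity) h2
    obtain ⟨T', rfl⟩ : 2 ∣ T := Nat.prime_two.dvd_of_dvd_pow (Dvd.intro _ h2)
    refine ⟨T', ?_⟩
    have h3 : 2 * N = 2 * (2 * T' ^ 2) := by rw [h2]; ring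
    exact Nat.eq_of_mul_eq_mul_left (by norm_num) h3

/-- The norm of the primitive part. -/
lemma norm_primitive {u : F} {g : ℕ} {x y : ℤ} {r : ℚ} (hg : Squarefree g)
    (hxy : IsCoprime x y) (hr : r ≠ 0) (hu : u = g * (x + y * s) * (r : F) ^ 2)
    (hev : ∀ v : HeightOneSpectrum (𝓞 F), (2 : 𝓞 F) ∉ v.asIdeal → IsSquare (v.valuation F u)) :
    (∃ T : ℤ, x ^ 2 + q * y ^ 2 = T ^ 2) ∨ ∃ T : ℤ, x ^ 2 + q * y ^ 2 = 2 * T ^ 2 := by
  set s' : 𝓞 F := ⟨s, isIntegral_s hs⟩ with hs'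
  have hs'F : (s' : F) = s := rfl
  set w : 𝓞 F := g * (x + y * s') with hw
  have hwF : (w : F) = g * (x + y * s) := by
    rw [hw]
    simp [hs'F]
  have hg0 : g ≠ 0 := hg.ne_zero
  have hnorm : Algebra.norm ℤ w = g ^ 2 * (x ^ 2 + q * y ^ 2) := by
    have h1 := Algebra.coe_norm_int w
    have h2 : (w : F) = ((g * x : ℚ) : F) + ((g * y : ℚ) : F) * s := by
      rw [hwF]
      push_cast
      ring
    rw [h2, (norm_trace hq0 hF hs _ _).1] at h1
    have h3 : ((Algebra.norm ℤ w : ℤ) : ℚ) = ((g ^ 2 * (x ^ 2 + q * y ^ 2) : ℤ) : ℚ) := by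
      rw [h1]
      push_cast
      ring
    exact_mod_cast h3
  have hpos : 0 < x ^ 2 + q * y ^ 2 := by
    have h1 : 0 ≤ x ^ 2 + q * y ^ 2 := by positivity
    rcases h1.lt_or_eq with h2 | h2
    · exact h2
    · exfalso
      have hq' : (0 : ℤ) < q := by exact_mod_cast hq0
      have h3 : y ^ 2 = 0 := by nlinarith [sq_nonneg x, sq_nonneg y, mul_nonneg hq'.le (sq_nonneg y)]
      have h4 : x ^ 2 = 0 := by rw [h3] at h2; linarith
      have h5 : y = 0 := pow_eq_zero_iff two_ne_zero |>.mp h3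
      have h6 : x = 0 := pow_eq_zero_iff two_ne_zero |>.mp h4
      rw [h5, h6] at hxy
      exact not_isCoprime_zero_zero hxy
  have hw0 : w ≠ 0 := by
    intro h
    rw [h, Algebra.norm_zero] at hnorm
    have : (0 : ℤ) < g ^ 2 * (x ^ 2 + q * y ^ 2) := by positivity
    omega
  have hev' : ∀ v : HeightOneSpectrum (𝓞 F), (2 : 𝓞 F) ∉ v.asIdeal →
      IsSquare (v.intValuation w) := by
    intro v hv
    obtain ⟨γ, hγ⟩ := hev v hv
    rw [hu, ← hwF, map_mul, map_pow, v.valuation_of_algebraMap] at hγ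
    have e3 : v.valuation F (r : F) ≠ 0 := by
      rw [Valuation.ne_zero_iff]
      exact_mod_cast hr
    refine ⟨γ * (v.valuation F (r : F))⁻¹, ?_⟩
    rw [mul_mul_mul_comm, ← hγ, ← mul_inv, ← sq, mul_inv_cancel_right₀ (pow_ne_zero 2 e3)]
  have h1 := absNorm_twoSq hw0 hev'
  rw [Ideal.absNorm_span_singleton, hnorm, Int.natAbs_mul, Int.natAbs_pow, Int.natAbs_natCast] at h1
  have h2 : ((x ^ 2 + q * y ^ 2).natAbs : ℤ) = x ^ 2 + q * y ^ 2 := Int.natAbs_of_nonneg hpos.le
  rcases sq_or_two_sq (Nat.pos_of_ne_zero hg0) h1 with ⟨T, hT⟩ | ⟨T, hT⟩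
  · left
    refine ⟨T, ?_⟩
    rw [← h2, hT]
    push_cast
    rfl
  · right
    refine ⟨T, ?_⟩
    rw [← h2, hT]
    push_cast
    rfl

omit [NumberField F] hq0 hF hs hq in
lemma isSquare_of_mul_sq {K : Type*} [Field K] {a r : K} (hr : r ≠ 0)
    (h : IsSquare (a * r ^ 2)) : IsSquare a := by
  obtain ⟨b, hb⟩ := h
  refine ⟨b / r, ?_⟩
  field_simp
  rw [hb]
  ring

/-- Rational elements. -/
lemma isSquare_of_rat {σ : ℚ_[2]} (hσ : σ ^ 2 = -(q : ℚ_[2])) {R : ℚ} (hR : R ≠ 0)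
    (hev : ∀ v : HeightOneSpectrum (𝓞 F), (2 : 𝓞 F) ∉ v.asIdeal →
      IsSquare (v.valuation F (R : F))) (hj : IsSquare (R : ℚ_[2])) : IsSquare (R : F) := by
  have hR' : (R : F) ≠ 0 := by exact_mod_cast hR
  obtain ⟨g, x, y, r, hg, hxy, hr, hu⟩ := exists_primitive hq0 hF hs hR'
  have hgd := squarefree_part_dvd hq0 hF hs hq hg hxy hr hu hev
  have h1 : ((R : ℚ) : F) + ((0 : ℚ) : F) * s =
      ((g * x * r ^ 2 : ℚ) : F) + ((g * y * r ^ 2 : ℚ) : F) * s := by
    rw [hu]
    push_cast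
    ring
  obtain ⟨h2, h3⟩ := coords_inj hq0 hs h1
  have hy : y = 0 := by
    have hg0 : (g : ℚ) ≠ 0 := by exact_mod_cast hg.ne_zero
    rw [eq_comm, mul_eq_zero, mul_eq_zero] at h3
    rcases h3 with (h3 | h3) | h3
    · exact absurd h3 hg0
    · exact_mod_cast h3
    · exact absurd h3 (pow_ne_zero 2 hr)
  rw [hy, isCoprime_zero_right, Int.isUnit_iff] at hxy
  -- `g` is one of four numbers
  have hg4 : g = 1 ∨ g = 2 ∨ g = q ∨ g = 2 * q := by
    obtain ⟨d1, d2, h4, h5, rfl⟩ := (Nat.dvd_mul).mp hgd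
    rcases (Nat.dvd_prime Nat.prime_two).mp h4 with rfl | rfl <;>
      rcases (Nat.dvd_prime hq).mp h5 with rfl | rfl <;> simp
  have hrp : (r : ℚ_[2]) ≠ 0 := by exact_mod_cast hr
  have hσ0 : σ ≠ 0 := by
    rintro rfl
    rw [zero_pow two_ne_zero, eq_comm, neg_eq_zero] at hσ
    exact hq0.ne' (by exact_mod_cast hσ)
  -- no element of the form `a * τ ^ 2` with `a = -1, 2, -2` is a square
  have key : ∀ (a : ℤ) (τ : ℚ_[2]), (a = -1 ∨ a = 2 ∨ a = -2) → τ ≠ 0 →
      (R : ℚ_[2]) = a * τ ^ 2 → False := by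
    intro a τ ha hτ h
    rw [h] at hj
    exact not_isSquare_of_mod ha (isSquare_of_mul_sq hτ hj)
  have h2' : (R : ℚ_[2]) = g * x * (r : ℚ_[2]) ^ 2 := by
    rw [h2]
    push_cast
    ring
  have h2F : (R : F) = g * x * (r : F) ^ 2 := by
    rw [h2]
    push_cast
    ring
  rcases hg4 with rfl | rfl | hgq | hgq <;> rcases hxy with rfl | rfl
  · exact ⟨r, by rw [h2F]; push_cast; ring⟩
  · exact (key (-1) r (by norm_num) hrp (by rw [h2']; push_cast; ring)).elim
  · exact (key 2 r (by norm_num) hrp (by rw [h2']; push_cast; ring)).elim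
  · exact (key (-2) r (by norm_num) hrp (by rw [h2']; push_cast; ring)).elim
  · refine (key (-1) (σ * r) (by norm_num) (mul_ne_zero hσ0 hrp) ?_).elim
    rw [h2', hgq]
    push_cast
    linear_combination (-(r : ℚ_[2]) ^ 2) * hσ * (-1)
  · refine ⟨s * r, ?_⟩
    rw [h2F, hgq]
    push_cast
    linear_combination (-(r : F) ^ 2) * hs
  · refine (key (-2) (σ * r) (by norm_num) (mul_ne_zero hσ0 hrp) ?_).elim
    rw [h2', hgq]
    push_cast
    linear_combination (2 * (r : ℚ_[2]) ^ 2) * hσ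
  · refine (key 2 (σ * r) (by norm_num) (mul_ne_zero hσ0 hrp) ?_).elim
    rw [h2', hgq]
    push_cast
    linear_combination (-2 * (r : ℚ_[2]) ^ 2) * hσ

/-- The arithmetic statement: for `q ≡ 7 (mod 16)`, an element of `ℚ(√-q)` of even valuation at
all primes not above `2` which is a square in one of the two completions at `2` is a square. -/
theorem isSquare_of_local (h16 : q % 16 = 7) (j : F →+* ℚ_[2]) {u : F}
    (hev : ∀ v : HeightOneSpectrum (𝓞 F), (2 : 𝓞 F) ∉ v.asIdeal → IsSquare (v.valuation F u))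
    (hj : IsSquare (j u)) : IsSquare u := by
  by_cases hu0 : u = 0
  · rw [hu0]
    exact ⟨0, by ring⟩
  obtain ⟨g, x, y, r, hg, hxy, hr, hu⟩ := exists_primitive hq0 hF hs hu0
  have hjs : (j s) ^ 2 = -(q : ℚ_[2]) := by
    rw [← map_pow, hs, map_neg, map_natCast]
  have hrF : (r : F) ≠ 0 := by exact_mod_cast hr
  have hgF : (g : F) ≠ 0 := by exact_mod_cast hg.ne_zero
  rcases norm_primitive hq0 hF hs hq hg hxy hr hu hev with ⟨T, hT⟩ | ⟨T, hT⟩
  · -- the norm is a square: reduction to rational elements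
    have hpos : x ≠ 0 ∨ y ≠ 0 := by
      by_contra hcon
      push Not at hcon
      rw [hcon.1, hcon.2] at hxy
      exact not_isCoprime_zero_zero hxy
    obtain ⟨S, hS, hS2⟩ : ∃ S : ℤ, x ^ 2 + q * y ^ 2 = S ^ 2 ∧ x + S ≠ 0 := by
      by_cases h : x + T = 0
      · refine ⟨-T, by rw [hT]; ring, ?_⟩
        intro h'
        have hx : x = 0 := by omega
        have hT0 : T = 0 := by omega
        rw [hx, hT0] at hT
        have hq' : (q : ℤ) ≠ 0 := by exact_mod_cast hq0.ne'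
        have hy : y = 0 := by
          have : (q : ℤ) * y ^ 2 = 0 := by linarith
          exact pow_eq_zero_iff two_ne_zero |>.mp ((mul_eq_zero.mp this).resolve_left hq')
        rcases hpos with h4 | h4
        · exact h4 hx
        · exact h4 hy
      · exact ⟨T, hT, h⟩
    have hSF : ((x : F)) ^ 2 + q * (y : F) ^ 2 = (S : F) ^ 2 := by
      exact_mod_cast congrArg (fun t : ℤ => (t : F)) hS
    have hS2F : ((x : F)) + S ≠ 0 := by exact_mod_cast hS2
    set R : ℚ := 2 * (x + S) * g with hR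
    have hR0 : R ≠ 0 := by
      rw [hR]
      have h1 : ((x : ℚ) + S) ≠ 0 := by exact_mod_cast hS2
      have h2 : (g : ℚ) ≠ 0 := by exact_mod_cast hg.ne_zero
      positivity
    have hRF : (R : F) = 2 * (x + S) * g := by
      rw [hR]
      push_cast
      ring
    -- `u` is `R` times a square
    have h2F : (2 : F) ≠ 0 := two_ne_zero
    have huR : u * (2 * ((x : F) + S)) ^ 2 = R * (((x : F) + y * s + S) * r) ^ 2 := by
      rw [hu, hRF]
      linear_combination (2 * ((x : F) + S) * g * (r : F) ^ 2) * hSF -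
        (2 * ((x : F) + S) * g * (r : F) ^ 2 * (y : F) ^ 2) * hs
    set A : F := 2 * ((x : F) + S) with hA
    set B : F := ((x : F) + y * s + S) * r with hB
    have hA0 : A ≠ 0 := mul_ne_zero h2F hS2F
    have hB0 : B ≠ 0 := by
      intro h
      rw [h, zero_pow two_ne_zero, mul_zero, mul_eq_zero] at huR
      rcases huR with h3 | h3
      · exact hu0 h3
      · exact pow_ne_zero 2 hA0 h3
    have hRu : (R : F) = u * (A / B) ^ 2 := by
      rw [div_pow, mul_div_assoc', huR]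
      field_simp
    have h3 : IsSquare (R : F) := by
      apply isSquare_of_rat hq0 hF hs hq hjs hR0
      · intro v hv
        obtain ⟨γ, hγ⟩ := hev v hv
        refine ⟨γ * v.valuation F (A / B), ?_⟩
        rw [hRu, map_mul, map_pow, hγ, sq, mul_mul_mul_comm]
      · obtain ⟨γ, hγ⟩ := hj
        refine ⟨γ * j (A / B), ?_⟩
        rw [← map_ratCast j, hRu, map_mul, map_pow, hγ]
        ring
    obtain ⟨γ, hγ⟩ := h3
    refine ⟨γ * B / A, ?_⟩
    field_simp
    rw [huR, hγ]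
    ring
  · -- the norm is twice a square: impossible
    exfalso
    have hgd := squarefree_part_dvd hq0 hF hs hq hg hxy hr hu hev
    have hg4 : g = 1 ∨ g = 2 ∨ g = q ∨ g = 2 * q := by
      obtain ⟨d1, d2, h4, h5, rfl⟩ := (Nat.dvd_mul).mp hgd
      rcases (Nat.dvd_prime Nat.prime_two).mp h4 with rfl | rfl <;>
        rcases (Nat.dvd_prime hq).mp h5 with rfl | rfl <;> simp
    have hg4' : (g : ℚ_[2]) = 1 ∨ (g : ℚ_[2]) = 2 ∨ (g : ℚ_[2]) = q ∨ (g : ℚ_[2]) = 2 * q := by
      rcases hg4 with h | h | h | h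
      · left; rw [h]; norm_num
      · right; left; rw [h]; norm_num
      · right; right; left; rw [h]
      · right; right; right; rw [h]; push_cast; ring
    apply not_isSquare_dyadic h16 hxy hT hjs hg4'
    have hrp : (r : ℚ_[2]) ≠ 0 := by exact_mod_cast hr
    apply isSquare_of_mul_sq hrp
    rw [hu] at hj
    simpa using hj

end

end Pool.Agent.Lib.MP_7c08ba_nt
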