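import Mathlib

set_option autoImplicit false

/-!
Continuous cocycles on the absolute Galois group of a number field and local conditions.
-/

namespace Pool.Agent.Lib.MP_7c08ba_nt

open NumberField Matrix Polynomial

/-- The absolute Galois group of a field. -/
abbrev AbsGal (F : Type) [Field F] : Type := Gal(AlgebraicClosure F/F)

/-- The ring of all algebraic integers in an algebraic closure. -/
abbrev AllInt (F : Type) [Field F] : Type := 𝓞 (AlgebraicClosure F)

/-- The decomposition group of a prime of the ring of all algebraic integers. -/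
def decomp (F : Type) [Field F] (P : Ideal (AllInt F)) : Subgroup (AbsGal F) where
  carrier := {g | ∀ x : AllInt F, g • x ∈ P ↔ x ∈ P}
  one_mem' x := by rw [one_smul]
  mul_mem' {g h} hg hh x := by rw [mul_smul, hg, hh]
  inv_mem' {g} hg x := by rw [← hg, smul_inv_smul]

/-- The inertia group of a prime of the ring of all algebraic integers. -/
def inert (F : Type) [Field F] (P : Ideal (AllInt F)) : Subgroup (AbsGal F) where
  carrier := {g | ∀ x : AllInt F, g • x - x ∈ P}
  one_mem' x := by rw [one_smul, sub_self]; exact P.zero_mem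
  mul_mem' {g h} hg hh x := by
    have h1 := P.add_mem (hg (h • x)) (hh x)
    rw [mul_smul]
    simpa using h1
  inv_mem' {g} hg x := by
    have h1 := P.neg_mem (hg (g⁻¹ • x))
    simpa using h1

section

variable {F : Type} [Field F] {L : Type} [NormedField L] {n : ℕ}

/-- Residual unipotence: all characteristic polynomials are congruent to `(X - 1) ^ n` modulo the
maximal ideal of the valuation ring of `L`. -/
def ResUnipotent (ρ : AbsGal F →* Matrix.GeneralLinearGroup (Fin n) L) : Prop :=
  ∀ (g : AbsGal F) (i : ℕ),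
    ‖((ρ g : Matrix (Fin n) (Fin n) L).charpoly - (X - 1) ^ n).coeff i‖ < 1

/-- The vectors invariant under a subgroup. -/
def invariants (ρ : AbsGal F →* Matrix.GeneralLinearGroup (Fin n) L) (H : Subgroup (AbsGal F)) :
    Submodule L (Fin n → L) where
  carrier := {x | ∀ h ∈ H, (ρ h : Matrix (Fin n) (Fin n) L) *ᵥ x = x}
  zero_mem' h _ := Matrix.mulVec_zero _
  add_mem' {x y} hx hy h hh := by rw [Matrix.mulVec_add, hx h hh, hy h hh]
  smul_mem' a x hx h hh := by rw [Matrix.mulVec_smul, hx h hh]

/-- Continuous `1`-cocycles. -/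
def cocycles (ρ : AbsGal F →* Matrix.GeneralLinearGroup (Fin n) L) :
    Submodule L (AbsGal F → Fin n → L) where
  carrier := {c | Continuous c ∧
    ∀ g h, c (g * h) = c g + (ρ g : Matrix (Fin n) (Fin n) L) *ᵥ c h}
  zero_mem' := ⟨continuous_const, fun g h => by simp⟩
  add_mem' {c d} hc hd := ⟨hc.1.add hd.1, fun g h => by
    simp only [Pi.add_apply, hc.2 g h, hd.2 g h, Matrix.mulVec_add]
    abel⟩
  smul_mem' a c hc := ⟨hc.1.const_smul a, fun g h => by
    simp only [Pi.smul_apply, hc.2 g h, Matrix.mulVec_smul, smul_add]⟩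

/-- The functions which are coboundaries on a subgroup `H`. -/
def coboundOn (ρ : AbsGal F →* Matrix.GeneralLinearGroup (Fin n) L) (H : Subgroup (AbsGal F)) :
    Submodule L (AbsGal F → Fin n → L) where
  carrier := {c | ∃ x : Fin n → L, ∀ g ∈ H, c g = (ρ g : Matrix (Fin n) (Fin n) L) *ᵥ x - x}
  zero_mem' := ⟨0, fun g _ => by simp⟩
  add_mem' {c d} := by
    rintro ⟨x, hx⟩ ⟨y, hy⟩
    refine ⟨x + y, fun g hg => ?_⟩
    simp only [Pi.add_apply, hx g hg, hy g hg, Matrix.mulVec_add]
    abel
  smul_mem' a c := by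
    rintro ⟨x, hx⟩
    refine ⟨a • x, fun g hg => ?_⟩
    simp only [Pi.smul_apply, hx g hg, Matrix.mulVec_smul, smul_sub]

/-- Cocycles which are coboundaries on the inertia groups at all primes not above `2` and on the
decomposition group at `P₀`. -/
def selmer (ρ : AbsGal F →* Matrix.GeneralLinearGroup (Fin n) L) (P₀ : Ideal (AllInt F)) :
    Submodule L (AbsGal F → Fin n → L) :=
  cocycles ρ ⊓ coboundOn ρ (decomp F P₀) ⊓
    ⨅ P : {P : Ideal (AllInt F) // P.IsPrime ∧ (2 : AllInt F) ∉ P}, coboundOn ρ (inert F P.1)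

/-- The dimension of the space of classes of Selmer cocycles modulo coboundaries. -/
noncomputable def selmerRank (ρ : AbsGal F →* Matrix.GeneralLinearGroup (Fin n) L)
    (P₀ : Ideal (AllInt F)) : Cardinal :=
  Module.rank L (selmer ρ P₀ ⧸ (coboundOn ρ ⊤).submoduleOf (selmer ρ P₀))

/-- The codimension of the space of inertia invariants. -/
noncomputable def inertiaCodim (ρ : AbsGal F →* Matrix.GeneralLinearGroup (Fin n) L)
    (Q : Ideal (AllInt F)) : ℕ :=
  n - Module.finrank L (invariants ρ (inert F Q))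

/-- `T` consists of primes not above `2` and the representation is unramified at every prime not
above `2` whose trace on `F` is not the trace of an element of `T`. -/
def RamifiedOver (ρ : AbsGal F →* Matrix.GeneralLinearGroup (Fin n) L)
    (T : Finset (Ideal (AllInt F))) : Prop :=
  (∀ Q ∈ T, Q.IsPrime ∧ (2 : AllInt F) ∉ Q) ∧
  ∀ P : Ideal (AllInt F), P.IsPrime → (2 : AllInt F) ∉ P →
    (∀ g ∈ inert F P, ρ g = 1) ∨
    ∃ Q ∈ T, ∀ x : 𝓞 F, algebraMap (𝓞 F) (AllInt F) x ∈ P ↔ algebraMap (𝓞 F) (AllInt F) x ∈ Q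

end

/-- The prime `P₀` lies above the place of `F` given by an embedding into `ℚ₂`. -/
def LiesAt {F : Type} [Field F] (j : F →+* ℚ_[2]) (P₀ : Ideal (AllInt F)) : Prop :=
  P₀.IsPrime ∧ ∀ x : 𝓞 F, algebraMap (𝓞 F) (AllInt F) x ∈ P₀ ↔ ‖j x‖ < 1

end Pool.Agent.Lib.MP_7c08ba_nt
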