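import Mathlib
import Pool.Agent.Lib.MP_7c08ba_nt.Defs

set_option autoImplicit false

/-!
Galois characters attached to canonical Hecke characters of `ℚ(√-q)` and their quadratic twists.
-/

namespace Pool.Agent.Lib.MP_7c08ba_nt

open NumberField Matrix

/-- The number of primes `r ∣ D` with `r ≡ i (mod 8)`. -/
def primesMod (D : ℤ) (i : ℕ) : ℕ := (D.natAbs.primeFactors.filter (fun r => r % 8 = i)).card

/-- The number `b(D) = n₇ + (n₃ - 1)` if `n₃ ≠ 0`, and `n₇ + (n₅ mod 2)` if `n₃ = 0`, where `nᵢ` is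
the number of primes `r ∣ D` with `r ≡ i (mod 8)`. -/
def basicBound (D : ℤ) : ℕ :=
  primesMod D 7 + if primesMod D 3 = 0 then primesMod D 5 % 2 else primesMod D 3 - 1

/-- Arithmetic Frobenius elements at a prime of the ring of all algebraic integers. -/
def IsFrobenius {F : Type} [Field F] (P : Ideal (AllInt F)) (g : AbsGal F) : Prop :=
  ∀ x : AllInt F, g • x - x ^ Nat.card (𝓞 F ⧸ P.under (𝓞 F)) ∈ P

/-- The character `ρ` is the `2`-adic realisation of the Hecke character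
`(t) ↦ (a/q) (D/N(t)) j(t) ^ k J(t) ^ (1 - k)`, where `s = √-q`, `t ≡ a (mod s)`, and `j`, `J` are
the two embeddings into `ℚ₂`. -/
structure Realises {F : Type} [Field F] [NumberField F] (q : ℕ) (s : 𝓞 F) (D k : ℤ)
    (j J : F →+* ℚ_[2]) (ρ : AbsGal F →* Matrix.GeneralLinearGroup (Fin 1) ℚ_[2]) : Prop where
  /-- continuity -/
  continuous : Continuous ρ
  /-- ramification outside `2`: quadratic, and only at the divisors of `q D` -/
  inertia : ∀ P : Ideal (AllInt F), P.IsPrime → (2 : AllInt F) ∉ P → ∀ g ∈ inert F P,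
    ρ g = 1 ∨ (ρ g = -1 ∧ ((q : AllInt F) * D) ∈ P)
  /-- the values at the Frobenius elements -/
  frobenius : ∀ P : Ideal (AllInt F), P.IsPrime → (2 * (q : AllInt F) * D) ∉ P →
    ∀ g : AbsGal F, IsFrobenius P g → ∀ (N : ℕ) (t : 𝓞 F) (a : ℤ),
      (P.under (𝓞 F)) ^ N = Ideal.span {t} → s ∣ t - a →
      (ρ g : Matrix (Fin 1) (Fin 1) ℚ_[2]) 0 0 ^ N =
        jacobiSym a q * jacobiSym D (Algebra.norm ℤ t).natAbs * (j t) ^ k * (J t) ^ (1 - k)

end Pool.Agent.Lib.MP_7c08ba_nt
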