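import Mathlib

set_option autoImplicit false

/-!
Open subgroups of index two of a Galois group and square roots.
-/

namespace Pool.Agent.Lib.MP_7c08ba_nt

open IntermediateField

variable {F Ω : Type*} [Field F] [Field Ω] [Algebra F Ω] [IsGalois F Ω]

/-- An open subgroup of index two is the stabiliser of a square root. -/
theorem exists_sqrt (K : Subgroup Gal(Ω/F)) (hK : IsOpen (K : Set Gal(Ω/F)))
    (hidx : K.index = 2) :
    ∃ (y : Ω) (u : F), y ≠ 0 ∧ y ^ 2 = algebraMap F Ω u ∧ (∀ g : Gal(Ω/F), g ∈ K → g y = y) ∧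
      (∀ g : Gal(Ω/F), g ∉ K → g y = -y) ∧ ∃ g : Gal(Ω/F), g ∉ K := by
  have hKn : K.Normal := Subgroup.normal_of_index_eq_two hidx
  have hKc : IsClosed (K : Set Gal(Ω/F)) := K.isClosed_of_isOpen hK
  have hfix : (fixedField K).fixingSubgroup = K :=
    InfiniteGalois.fixingSubgroup_fixedField ⟨K, hKc⟩
  have hmul : ∀ g h : Gal(Ω/F), g ∉ K → h ∉ K → g * h ∈ K := fun g h hg hh =>
    (Subgroup.mul_mem_iff_of_index_two hidx).mpr ⟨fun h => absurd h hg, fun h => absurd h hh⟩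
  obtain ⟨g₀, hg₀⟩ : ∃ g, g ∉ K := by
    by_contra hcon
    push Not at hcon
    have : K = ⊤ := by
      ext g
      simp [hcon g]
    rw [this, Subgroup.index_top] at hidx
    omega
  obtain ⟨x, hxK, hx⟩ : ∃ x : Ω, (∀ g ∈ K, g x = x) ∧ g₀ x ≠ x := by
    by_contra hcon
    push Not at hcon
    apply hg₀
    rw [← hfix, IntermediateField.mem_fixingSubgroup_iff]
    intro z hz
    exact hcon z (fun g hg => by
      have := (mem_fixedField_iff K z).mp hz g hg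
      exact this)
  have hg₀K : ∀ k ∈ K, k (g₀ x) = g₀ x := by
    intro k hk
    have h1 : g₀⁻¹ * k * g₀ ∈ K := by
      have := hKn.conj_mem k hk g₀⁻¹
      simpa using this
    have h3 := hxK _ h1
    have h4 : g₀ ((g₀⁻¹ * k * g₀) x) = k (g₀ x) := by
      rw [← AlgEquiv.mul_apply]
      have : g₀ * (g₀⁻¹ * k * g₀) = k * g₀ := by group
      rw [this, AlgEquiv.mul_apply]
    rw [← h4, h3]
  have hgg : g₀ (g₀ x) = x := by
    rw [← AlgEquiv.mul_apply]
    exact hxK _ (hmul _ _ hg₀ hg₀)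
  have hyK : ∀ g : Gal(Ω/F), g ∈ K → g (x - g₀ x) = x - g₀ x := by
    intro g hg
    rw [map_sub, hxK g hg, hg₀K g hg]
  have hy0 : g₀ (x - g₀ x) = -(x - g₀ x) := by
    rw [map_sub, hgg]
    ring
  have hyn : ∀ g : Gal(Ω/F), g ∉ K → g (x - g₀ x) = -(x - g₀ x) := by
    intro g hg
    have h1 : g * g₀ ∈ K := hmul _ _ hg hg₀
    have h3 := hyK _ h1
    rw [AlgEquiv.mul_apply, hy0, map_neg] at h3
    rw [eq_neg_iff_add_eq_zero, ← neg_eq_iff_add_eq_zero]
    exact h3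
  have hyne : x - g₀ x ≠ 0 := sub_ne_zero.mpr (Ne.symm hx)
  obtain ⟨u, hu⟩ : (x - g₀ x) ^ 2 ∈ Set.range (algebraMap F Ω) := by
    rw [InfiniteGalois.mem_range_algebraMap_iff_fixed]
    intro g
    rw [map_pow]
    by_cases hg : g ∈ K
    · rw [hyK g hg]
    · rw [hyn g hg, neg_sq]
  exact ⟨x - g₀ x, u, hyne, hu.symm, hyK, hyn, g₀, hg₀⟩

/-- Anti-invariant elements are multiples of the square root. -/
lemma anti_eq (K : Subgroup Gal(Ω/F)) {y : Ω} (hy : y ≠ 0) (hyK : ∀ g ∈ K, g y = y)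
    (hyn : ∀ g : Gal(Ω/F), g ∉ K → g y = -y) {z : Ω} (hzK : ∀ g ∈ K, g z = z)
    (hzn : ∀ g : Gal(Ω/F), g ∉ K → g z = -z) : ∃ b : F, z = algebraMap F Ω b * y := by
  obtain ⟨b, hb⟩ : z / y ∈ Set.range (algebraMap F Ω) := by
    rw [InfiniteGalois.mem_range_algebraMap_iff_fixed]
    intro g
    rw [map_div₀]
    by_cases hg : g ∈ K
    · rw [hyK g hg, hzK g hg]
    · rw [hyn g hg, hzn g hg, neg_div_neg_eq]
  exact ⟨b, by rw [hb, div_mul_cancel₀ _ hy]⟩

end Pool.Agent.Lib.MP_7c08ba_nt
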