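import Mathlib
import Pool.Agent.Lib.MP_7c08ba_nt.Kummer

set_option autoImplicit false

/-!
Decomposition and inertia groups of primes of the ring of all algebraic integers.
-/

namespace Pool.Agent.Lib.MP_7c08ba_nt

set_option linter.unusedSectionVars false

open NumberField
open scoped Pointwise

universe u

variable {F Ω : Type u} [Field F] [Field Ω] [Algebra F Ω] [IsGalois F Ω]

/-- The invariants of a subgroup of the Galois group. -/
abbrev invar (K : Subgroup Gal(Ω/F)) : Subring (𝓞 Ω) := FixedPoints.subring (𝓞 Ω) K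

instance (K : Subgroup Gal(Ω/F)) : SMulCommClass K (invar K) (𝓞 Ω) where
  smul_comm k a b := by
    rw [Subring.smul_def, Subring.smul_def, smul_eq_mul, smul_eq_mul, smul_mul']
    congr 1
    exact a.2 k

instance (K : Subgroup Gal(Ω/F)) : Algebra.IsInvariant (invar K) (𝓞 Ω) K where
  isInvariant b hb := ⟨⟨b, hb⟩, rfl⟩

lemma isOpen_stabilizer_int (x : 𝓞 Ω) :
    IsOpen (MulAction.stabilizer Gal(Ω/F) x : Set Gal(Ω/F)) := by
  have h : (MulAction.stabilizer Gal(Ω/F) x) = MulAction.stabilizer Gal(Ω/F) (x : Ω) := by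
    ext g
    rw [MulAction.mem_stabilizer_iff, MulAction.mem_stabilizer_iff]
    constructor
    · intro h
      have := congrArg (fun z : 𝓞 Ω => (z : Ω)) h
      exact this
    · intro h
      apply RingOfIntegers.ext
      exact h
  rw [h]
  exact stabilizer_isOpen_of_isIntegral _

/-- A closed subgroup acts transitively on the primes with the same invariant elements. -/
lemma exists_smul_eq (K : Subgroup Gal(Ω/F)) (hK : IsClosed (K : Set Gal(Ω/F)))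
    (P Q : Ideal (𝓞 Ω)) [P.IsPrime] [Q.IsPrime]
    (hPQ : ∀ x : 𝓞 Ω, (∀ k ∈ K, k • x = x) → (x ∈ P ↔ x ∈ Q)) : ∃ k ∈ K, Q = k • P := by
  let : TopologicalSpace (𝓞 Ω) := ⊥
  have : DiscreteTopology (𝓞 Ω) := ⟨rfl⟩
  have : ContinuousSMul Gal(Ω/F) (𝓞 Ω) :=
    (continuousSMul_iff_stabilizer_isOpen (M := Gal(Ω/F)) (X := 𝓞 Ω)).mpr isOpen_stabilizer_int
  have : CompactSpace K := isCompact_iff_compactSpace.mp hK.isCompact
  have h : P.under (invar K) = Q.under (invar K) := by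
    ext x
    exact hPQ x.1 (fun k hk => x.2 ⟨k, hk⟩)
  obtain ⟨g, hg⟩ := Algebra.IsInvariant.exists_smul_of_under_eq_of_profinite
    (A := invar K) (B := 𝓞 Ω) (G := K) P Q h
  exact ⟨g.1, g.2, hg⟩

/-- Lifting an automorphism of the residue ring. -/
lemma exists_lift (K : Subgroup Gal(Ω/F)) (hK : IsClosed (K : Set Gal(Ω/F)))
    (P : Ideal (𝓞 Ω)) [P.IsPrime] (g : Gal(Ω/F)) (hg : g • P = P)
    (hgP : ∀ x : 𝓞 Ω, (∀ k ∈ K, k • x = x) → g • x - x ∈ P) :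
    ∃ k ∈ K, k • P = P ∧ ∀ b : 𝓞 Ω, k • b - g • b ∈ P := by
  let : TopologicalSpace (𝓞 Ω) := ⊥
  have : DiscreteTopology (𝓞 Ω) := ⟨rfl⟩
  have : ContinuousSMul Gal(Ω/F) (𝓞 Ω) :=
    (continuousSMul_iff_stabilizer_isOpen (M := Gal(Ω/F)) (X := 𝓞 Ω)).mpr isOpen_stabilizer_int
  have : CompactSpace K := isCompact_iff_compactSpace.mp hK.isCompact
  set p : Ideal (invar K) := P.under (invar K) with hp
  have : P.LiesOver p := ⟨rfl⟩
  have hmap : P = Ideal.map (MulSemiringAction.toRingEquiv Gal(Ω/F) (𝓞 Ω) g : 𝓞 Ω →+* 𝓞 Ω) P := by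
    conv_lhs => rw [← hg]
    rfl
  let e : (𝓞 Ω ⧸ P) ≃+* (𝓞 Ω ⧸ P) :=
    Ideal.quotientEquiv P P (MulSemiringAction.toRingEquiv Gal(Ω/F) (𝓞 Ω) g) hmap
  let σ : (𝓞 Ω ⧸ P) ≃ₐ[invar K ⧸ p] (𝓞 Ω ⧸ P) :=
    AlgEquiv.ofRingEquiv (f := e) (by
      intro a
      obtain ⟨a, rfl⟩ := Ideal.Quotient.mk_surjective a
      change Ideal.Quotient.mk P (g • (a : 𝓞 Ω)) = Ideal.Quotient.mk P (a : 𝓞 Ω)
      rw [Ideal.Quotient.eq]
      exact hgP a.1 (fun k hk => a.2 ⟨k, hk⟩))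
  obtain ⟨k, hk⟩ := Ideal.Quotient.stabilizerHom_surjective_of_profinite (G := K) p P σ
  refine ⟨k.1.1, k.1.2, ?_, ?_⟩
  · exact k.2
  · intro b
    have h1 := congrArg (fun τ : (𝓞 Ω ⧸ P) ≃ₐ[invar K ⧸ p] (𝓞 Ω ⧸ P) =>
      τ (Ideal.Quotient.mk P b)) hk
    rw [← Ideal.Quotient.eq]
    exact h1

section Quadratic

variable {K : Subgroup Gal(Ω/F)} (hidx : K.index = 2)

include hidx

lemma mul_mem_of_not_mem {g h : Gal(Ω/F)} (hg : g ∉ K) (hh : h ∉ K) : g * h ∈ K :=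
  (Subgroup.mul_mem_iff_of_index_two hidx).mpr ⟨fun h => absurd h hg, fun h => absurd h hh⟩

/-- For an invariant `x`, the difference `g x - x` is anti-invariant. -/
lemma diff_anti {x : Ω} (hx : ∀ k ∈ K, k x = x) {g : Gal(Ω/F)} (hg : g ∉ K) :
    (∀ k ∈ K, k (g x - x) = g x - x) ∧ ∀ h : Gal(Ω/F), h ∉ K → h (g x - x) = -(g x - x) := by
  have hKn : K.Normal := Subgroup.normal_of_index_eq_two hidx
  have hinv : g⁻¹ ∉ K := fun h => hg (by simpa using K.inv_mem h)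
  constructor
  · intro k hk
    have h1 : g⁻¹ * k * g ∈ K := by
      have := hKn.conj_mem k hk g⁻¹
      simpa using this
    have h2 : k (g x) = g ((g⁻¹ * k * g) x) := by
      rw [← AlgEquiv.mul_apply, ← AlgEquiv.mul_apply]
      congr 1
      group
    rw [map_sub, hx k hk, h2, hx _ h1]
  · intro h hh
    have h1 : h (g x) = x := by
      rw [← AlgEquiv.mul_apply]
      exact hx _ (mul_mem_of_not_mem hidx hh hg)
    have h2 : h x = g x := by
      have h3 : g⁻¹ * h ∈ K := mul_mem_of_not_mem hidx hinv hh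
      have h4 : h x = g ((g⁻¹ * h) x) := by
        rw [← AlgEquiv.mul_apply]
        congr 1
        group
      rw [h4, hx _ h3]
    rw [map_sub, h1, h2]
    ring

variable {y : Ω} (hy0 : y ≠ 0) {u : F} (hyu : y ^ 2 = algebraMap F Ω u)
  (hyK : ∀ g ∈ K, g y = y) (hyn : ∀ g : Gal(Ω/F), g ∉ K → g y = -y)

include hy0 hyu hyK hyn

/-- For an invariant `x`, `(g x - x) ^ 2` is a square times `u`. -/
lemma sq_diff {x : Ω} (hx : ∀ k ∈ K, k x = x) {g : Gal(Ω/F)} (hg : g ∉ K) :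
    ∃ b : F, (g x - x) ^ 2 = algebraMap F Ω (b ^ 2 * u) ∧ g x - x = algebraMap F Ω b * y := by
  obtain ⟨h1, h2⟩ := diff_anti hidx hx hg
  obtain ⟨b, hb⟩ := anti_eq K hy0 hyK hyn h1 h2
  refine ⟨b, ?_, hb⟩
  rw [hb, mul_pow, hyu, map_mul, map_pow]

lemma smul_sub_mem [NumberField F] (v : IsDedekindDomain.HeightOneSpectrum (𝓞 F))
    (hv : ¬ IsSquare (v.valuation F u)) (P : Ideal (𝓞 Ω)) [P.IsPrime]
    (hP : ∀ x : 𝓞 F, x ∈ v.asIdeal ↔ algebraMap (𝓞 F) (𝓞 Ω) x ∈ P) (x : 𝓞 Ω)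
    (hx : ∀ k ∈ K, k • x = x) (g : Gal(Ω/F)) : g • x - x ∈ P := by
  by_cases hg : g ∈ K
  · rw [hx g hg, sub_self]
    exact P.zero_mem
  by_contra hcon
  have hx' : ∀ k ∈ K, k (x : Ω) = x := fun k hk =>
    congrArg (fun z : 𝓞 Ω => (z : Ω)) (hx k hk)
  obtain ⟨b, hb, -⟩ := sq_diff hidx hy0 hyu hyK hyn hx' hg
  have hint : IsIntegral ℤ (b ^ 2 * u) := by
    have h1 : IsIntegral ℤ (algebraMap F Ω (b ^ 2 * u)) := by
      rw [← hb]
      exact ((g • x - x) ^ 2 : 𝓞 Ω).2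
    exact (isIntegral_algebraMap_iff (algebraMap F Ω).injective).mp h1
  set w : 𝓞 F := ⟨b ^ 2 * u, hint⟩ with hw
  have h2 : algebraMap (𝓞 F) (𝓞 Ω) w = (g • x - x) ^ 2 := by
    apply RingOfIntegers.ext
    exact hb.symm
  have h3 : w ∉ v.asIdeal := by
    rw [hP, h2]
    exact fun h => hcon (Ideal.IsPrime.mem_of_pow_mem inferInstance 2 h)
  have h4 : v.valuation F (algebraMap (𝓞 F) F w) = 1 := by
    rw [IsDedekindDomain.HeightOneSpectrum.valuation_of_algebraMap]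
    exact (v.intValuation_eq_one_iff).mpr h3
  have h5 : algebraMap (𝓞 F) F w = b ^ 2 * u := rfl
  rw [h5, map_mul, map_pow] at h4
  apply hv
  refine ⟨(v.valuation F b)⁻¹, ?_⟩
  rw [← mul_inv, ← sq]
  exact eq_inv_of_mul_eq_one_right h4

/-- If the valuation of `u` at a prime of `F` is not a square, then the inertia groups above it are
not contained in `K`. -/
theorem exists_inertia_not_mem [NumberField F] (v : IsDedekindDomain.HeightOneSpectrum (𝓞 F))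
    (hv : ¬ IsSquare (v.valuation F u)) (P : Ideal (𝓞 Ω)) [P.IsPrime]
    (hP : ∀ x : 𝓞 F, x ∈ v.asIdeal ↔ algebraMap (𝓞 F) (𝓞 Ω) x ∈ P) {g₀ : Gal(Ω/F)}
    (hg₀ : g₀ ∉ K) (hK : IsClosed (K : Set Gal(Ω/F))) : ∃ g ∈ P.inertia Gal(Ω/F), g ∉ K := by
  have key := smul_sub_mem hidx hy0 hyu hyK hyn v hv P hP
  have hPQ : ∀ x : 𝓞 Ω, (∀ k ∈ K, k • x = x) → (x ∈ g₀ • P ↔ x ∈ P) := by
    intro x hx
    rw [Ideal.mem_pointwise_smul_iff_inv_smul_mem]
    have h1 := key x hx g₀⁻¹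
    constructor
    · intro h
      have := P.sub_mem h h1
      simpa using this
    · intro h
      have := P.add_mem h1 h
      simpa using this
  obtain ⟨k, hk, hkP⟩ := exists_smul_eq K hK (g₀ • P) P hPQ
  set g₁ := k * g₀ with hg₁
  have hg₁P : g₁ • P = P := by
    rw [hg₁, mul_smul]
    exact hkP.symm
  have hg₁K : g₁ ∉ K := fun h => hg₀ (by
    have := K.mul_mem (K.inv_mem hk) h
    rwa [hg₁, inv_mul_cancel_left] at this)
  obtain ⟨k', hk', hk'P, hk'2⟩ := exists_lift K hK P g₁ hg₁P (fun x hx => key x hx g₁)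
  refine ⟨k'⁻¹ * g₁, ?_, ?_⟩
  · intro b
    have h1 : (k'⁻¹ * g₁) • b - b = k'⁻¹ • (g₁ • b - k' • b) := by
      rw [smul_sub, mul_smul, inv_smul_smul]
    have h2 : g₁ • b - k' • b ∈ P := by
      rw [← neg_sub]
      exact P.neg_mem (hk'2 b)
    rw [h1]
    have h3 : k'⁻¹ • (g₁ • b - k' • b) ∈ k'⁻¹ • P := Ideal.smul_mem_pointwise_smul _ _ _ h2
    have h4 : k'⁻¹ • P = P := by
      rw [inv_smul_eq_iff]
      exact hk'P.symm
    rw [h4] at h3
    exact h3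
  · intro h
    apply hg₁K
    have := K.mul_mem hk' h
    rwa [mul_inv_cancel_left] at this

/-- If the decomposition group of `P` is contained in `K`, then the prime splits in the quadratic
extension. -/
theorem exists_split [NumberField F] (P : Ideal (𝓞 Ω)) [P.IsPrime] {g₀ : Gal(Ω/F)}
    (hg₀ : g₀ ∉ K) (hK : IsClosed (K : Set Gal(Ω/F))) (hD : ∀ g : Gal(Ω/F), g • P = P → g ∈ K) :
    ∃ (t m : 𝓞 F) (b : F), b ≠ 0 ∧ algebraMap (𝓞 F) (𝓞 Ω) t ∉ P ∧
      algebraMap (𝓞 F) (𝓞 Ω) m ∈ P ∧ (t : F) ^ 2 - 4 * (m : F) = b ^ 2 * u := by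
  have hinv : g₀⁻¹ ∉ K := fun h => hg₀ (by simpa using K.inv_mem h)
  have hmove : ∀ x : 𝓞 Ω, (∀ k ∈ K, k • x = x) → g₀⁻¹ • x = g₀ • x := by
    intro x hx
    rw [inv_smul_eq_iff, ← mul_smul]
    exact (hx _ (mul_mem_of_not_mem hidx hg₀ hg₀)).symm
  have hKn : K.Normal := Subgroup.normal_of_index_eq_two hidx
  have hinvar : ∀ x : 𝓞 Ω, (∀ k ∈ K, k • x = x) → ∀ k ∈ K, k • g₀ • x = g₀ • x := by
    intro x hx k hk
    have h1 : g₀⁻¹ * k * g₀ ∈ K := by
      have := hKn.conj_mem k hk g₀⁻¹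
      simpa using this
    have h2 : k • g₀ • x = g₀ • (g₀⁻¹ * k * g₀) • x := by
      rw [smul_smul, smul_smul]
      congr 1
      group
    rw [h2, hx _ h1]
  obtain ⟨x, hx, hxP, hxP'⟩ : ∃ x : 𝓞 Ω, (∀ k ∈ K, k • x = x) ∧ x ∈ P ∧ g₀ • x ∉ P := by
    by_contra hcon
    push Not at hcon
    have hPQ : ∀ x : 𝓞 Ω, (∀ k ∈ K, k • x = x) → (x ∈ P ↔ x ∈ g₀ • P) := by
      intro x hx
      rw [Ideal.mem_pointwise_smul_iff_inv_smul_mem, hmove x hx]
      refine ⟨hcon x hx, fun h => ?_⟩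
      have h1 := hcon (g₀ • x) (hinvar x hx) h
      rw [← hmove (g₀ • x) (hinvar x hx), inv_smul_smul] at h1
      exact h1
    obtain ⟨k, hk, hkP⟩ := exists_smul_eq K hK P (g₀ • P) hPQ
    have h1 : k⁻¹ * g₀ ∈ K := hD _ (by rw [mul_smul, hkP, inv_smul_smul])
    exact hg₀ (by
      have := K.mul_mem hk h1
      rwa [mul_inv_cancel_left] at this)
  have hx' : ∀ k ∈ K, k (x : Ω) = x := fun k hk =>
    congrArg (fun z : 𝓞 Ω => (z : Ω)) (hx k hk)
  obtain ⟨b, hb, hb'⟩ := sq_diff hidx hy0 hyu hyK hyn hx' hg₀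
  have hfix : ∀ g : Gal(Ω/F), (g (x : Ω) = x ∧ g (g₀ x : Ω) = g₀ x) ∨
      (g (x : Ω) = g₀ x ∧ g (g₀ x : Ω) = x) := by
    intro g
    by_cases hg : g ∈ K
    · left
      refine ⟨hx' g hg, ?_⟩
      exact congrArg (fun z : 𝓞 Ω => (z : Ω)) (hinvar x hx g hg)
    · right
      constructor
      · have h1 : g₀⁻¹ * g ∈ K := mul_mem_of_not_mem hidx hinv hg
        have h2 : g (x : Ω) = g₀ ((g₀⁻¹ * g) x) := by
          rw [← AlgEquiv.mul_apply]
          congr 1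
          group
        rw [h2, hx' _ h1]
      · rw [← AlgEquiv.mul_apply]
        exact hx' _ (mul_mem_of_not_mem hidx hg hg₀)
  obtain ⟨t', ht'⟩ : (x : Ω) + g₀ x ∈ Set.range (algebraMap F Ω) := by
    rw [InfiniteGalois.mem_range_algebraMap_iff_fixed]
    intro g
    rw [map_add]
    rcases hfix g with ⟨h1, h2⟩ | ⟨h1, h2⟩
    · rw [h1, h2]
    · rw [h1, h2, add_comm]
  obtain ⟨m', hm'⟩ : (x : Ω) * g₀ x ∈ Set.range (algebraMap F Ω) := by
    rw [InfiniteGalois.mem_range_algebraMap_iff_fixed]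
    intro g
    rw [map_mul]
    rcases hfix g with ⟨h1, h2⟩ | ⟨h1, h2⟩
    · rw [h1, h2]
    · rw [h1, h2, mul_comm]
  have ht : IsIntegral ℤ t' := by
    have h1 : IsIntegral ℤ (algebraMap F Ω t') := by
      rw [ht']
      exact (x + g₀ • x : 𝓞 Ω).2
    exact (isIntegral_algebraMap_iff (algebraMap F Ω).injective).mp h1
  have hm : IsIntegral ℤ m' := by
    have h1 : IsIntegral ℤ (algebraMap F Ω m') := by
      rw [hm']
      exact (x * g₀ • x : 𝓞 Ω).2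
    exact (isIntegral_algebraMap_iff (algebraMap F Ω).injective).mp h1
  have ht2 : algebraMap (𝓞 F) (𝓞 Ω) ⟨t', ht⟩ = x + g₀ • x := RingOfIntegers.ext ht'
  have hm2 : algebraMap (𝓞 F) (𝓞 Ω) ⟨m', hm⟩ = x * g₀ • x := RingOfIntegers.ext hm'
  refine ⟨⟨t', ht⟩, ⟨m', hm⟩, b, ?_, ?_, ?_, ?_⟩
  · rintro rfl
    rw [map_zero, zero_mul, sub_eq_zero] at hb'
    apply hxP'
    have : g₀ • x = x := RingOfIntegers.ext hb'
    rw [this]
    exact hxP
  · rw [ht2]
    intro h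
    apply hxP'
    have := P.sub_mem h hxP
    simpa using this
  · rw [hm2]
    exact P.mul_mem_right _ hxP
  · apply (algebraMap F Ω).injective
    change algebraMap F Ω (t' ^ 2 - 4 * m') = _
    rw [← hb, map_sub, map_pow, map_mul, ht', hm']
    simp only [map_ofNat]
    ring

end Quadratic

end Pool.Agent.Lib.MP_7c08ba_nt
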