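import Mathlib

set_option autoImplicit false

/-!
Non-archimedean norms on cocycles: a non-zero cocycle with values in a residually unipotent
representation vanishes only inside some open subgroup of index two.
-/

namespace Pool.Agent.Lib.MP_7c08ba_nt

set_option linter.unusedSectionVars false

open Polynomial Matrix

/-- Modulo `2`, the sum `1 + X + ... + X ^ (2 ^ m - 1)` is a power of `X - 1`. -/
lemma exists_geom_eq (m : ℕ) :
    ∃ R : ℤ[X], (∑ i ∈ Finset.range (2 ^ m), (X : ℤ[X]) ^ i) =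
      (X - 1) ^ (2 ^ m - 1) + C 2 * R := by
  suffices h : (C 2 : ℤ[X]) ∣
      (∑ i ∈ Finset.range (2 ^ m), (X : ℤ[X]) ^ i) - (X - 1) ^ (2 ^ m - 1) by
    obtain ⟨R, hR⟩ := h
    exact ⟨R, by rw [← hR]; ring⟩
  have h0 : ((∑ i ∈ Finset.range (2 ^ m), (X : ℤ[X]) ^ i) - (X - 1) ^ (2 ^ m - 1)).map
      (Int.castRingHom (ZMod 2)) = 0 := by
    have hX : (X - 1 : (ZMod 2)[X]) ≠ 0 := X_sub_C_ne_zero (1 : ZMod 2)
    have hp : 2 ^ m - 1 + 1 = 2 ^ m := Nat.sub_add_cancel Nat.one_le_two_pow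
    have h1 : (∑ i ∈ Finset.range (2 ^ m), (X : (ZMod 2)[X]) ^ i) * (X - 1) =
        (X - 1) ^ (2 ^ m - 1) * (X - 1) := by
      rw [geom_sum_mul, ← pow_succ, hp, sub_pow_char_pow, one_pow]
    have h2 := mul_right_cancel₀ hX h1
    simp only [Polynomial.map_sub, Polynomial.map_sum, Polynomial.map_pow, map_X,
      Polynomial.map_one]
    rw [h2, sub_self]
  rw [C_dvd_iff_dvd_coeff]
  intro i
  have h3 := congrArg (fun p : (ZMod 2)[X] => p.coeff i) h0
  simp only [coeff_map, coeff_zero, eq_intCast] at h3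
  exact (ZMod.intCast_zmod_eq_zero_iff_dvd _ 2).mp h3

section

variable {G : Type*} [Group G] {L : Type*} [NormedField L] [IsUltrametricDist L] {n : ℕ}
  (ρ : G →* Matrix.GeneralLinearGroup (Fin n) L)

/-- The open lattice of vectors all of whose translates have norm `< M`. -/
def openLat (M : ℝ) (hM : 0 < M) : AddSubgroup (Fin n → L) where
  carrier := {v | ∀ h, ‖(ρ h : Matrix (Fin n) (Fin n) L) *ᵥ v‖ < M}
  zero_mem' h := by simpa using hM
  add_mem' {a b} ha hb h := by
    rw [Matrix.mulVec_add]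
    exact (IsUltrametricDist.norm_add_le_max _ _).trans_lt (max_lt (ha h) (hb h))
  neg_mem' {a} ha h := by
    rw [Matrix.mulVec_neg, norm_neg]
    exact ha h

/-- The closed lattice of vectors all of whose translates have norm `≤ M`. -/
def closedLat (M : ℝ) (hM : 0 < M) : AddSubgroup (Fin n → L) where
  carrier := {v | ∀ h, ‖(ρ h : Matrix (Fin n) (Fin n) L) *ᵥ v‖ ≤ M}
  zero_mem' h := by simpa using hM.le
  add_mem' {a b} ha hb h := by
    rw [Matrix.mulVec_add]
    exact (IsUltrametricDist.norm_add_le_max _ _).trans (max_le (ha h) (hb h))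
  neg_mem' {a} ha h := by
    rw [Matrix.mulVec_neg, norm_neg]
    exact ha h

variable {ρ} {M : ℝ} {hM : 0 < M}

lemma mem_openLat {v : Fin n → L} : v ∈ openLat ρ M hM ↔
    ∀ h, ‖(ρ h : Matrix (Fin n) (Fin n) L) *ᵥ v‖ < M := Iff.rfl

lemma mem_closedLat {v : Fin n → L} : v ∈ closedLat ρ M hM ↔
    ∀ h, ‖(ρ h : Matrix (Fin n) (Fin n) L) *ᵥ v‖ ≤ M := Iff.rfl

lemma openLat_le : openLat ρ M hM ≤ closedLat ρ M hM := fun _ hv h => (hv h).le

lemma mulVec_mem_openLat (g : G) {v : Fin n → L} (hv : v ∈ openLat ρ M hM) :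
    (ρ g : Matrix (Fin n) (Fin n) L) *ᵥ v ∈ openLat ρ M hM := by
  intro h
  have := hv (h * g)
  rwa [map_mul, Units.val_mul, ← Matrix.mulVec_mulVec] at this

lemma mulVec_mem_closedLat (g : G) {v : Fin n → L} (hv : v ∈ closedLat ρ M hM) :
    (ρ g : Matrix (Fin n) (Fin n) L) *ᵥ v ∈ closedLat ρ M hM := by
  intro h
  have := hv (h * g)
  rwa [map_mul, Units.val_mul, ← Matrix.mulVec_mulVec] at this

lemma smul_mem_openLat {a : L} (ha : ‖a‖ < 1) {v : Fin n → L} (hv : v ∈ closedLat ρ M hM) :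
    a • v ∈ openLat ρ M hM := by
  intro h
  rw [Matrix.mulVec_smul, norm_smul]
  calc ‖a‖ * ‖(ρ h : Matrix (Fin n) (Fin n) L) *ᵥ v‖ ≤ ‖a‖ * M :=
        mul_le_mul_of_nonneg_left (hv h) (norm_nonneg a)
    _ < 1 * M := mul_lt_mul_of_pos_right ha hM
    _ = M := one_mul M

/-- An additive subgroup stable under a matrix is stable under integral polynomials in it. -/
lemma aeval_mem (H : AddSubgroup (Fin n → L)) (A : Matrix (Fin n) (Fin n) L)
    (hA : ∀ v ∈ H, A *ᵥ v ∈ H) (P : ℤ[X]) {v : Fin n → L} (hv : v ∈ H) :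
    (aeval A P) *ᵥ v ∈ H := by
  induction P using Polynomial.induction_on generalizing v with
  | C a =>
    rw [aeval_C, eq_intCast, Matrix.intCast_mulVec, Int.cast_smul_eq_zsmul]
    exact H.zsmul_mem hv a
  | add p q hp hq =>
    rw [map_add, Matrix.add_mulVec]
    exact H.add_mem (hp hv) (hq hv)
  | monomial k a ih =>
    have h1 : (C a * X ^ (k + 1) : ℤ[X]) = C a * X ^ k * X := by ring
    rw [h1, map_mul, aeval_X, ← Matrix.mulVec_mulVec]
    exact ih (hA v hv)

/-- The Cayley-Hamilton estimate. -/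
lemma sub_one_pow_mem (g : G)
    (huni : ∀ i, ‖((ρ g : Matrix (Fin n) (Fin n) L).charpoly - (X - 1) ^ n).coeff i‖ < 1)
    {v : Fin n → L} (hv : v ∈ closedLat ρ M hM) :
    ((ρ g : Matrix (Fin n) (Fin n) L) - 1) ^ n *ᵥ v ∈ openLat ρ M hM := by
  set A : Matrix (Fin n) (Fin n) L := (ρ g).val with hA
  set E : L[X] := A.charpoly - (X - 1) ^ n with hE
  have h1 : (A - 1) ^ n = - aeval A E := by
    rw [hE, map_sub, Matrix.aeval_self_charpoly, map_pow, map_sub, aeval_X, map_one]
    simp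
  have h2 : ∀ k : ℕ, A ^ k *ᵥ v ∈ closedLat ρ M hM := by
    intro k
    have h3 : A ^ k = (ρ (g ^ k) : Matrix (Fin n) (Fin n) L) := by
      rw [map_pow, Units.val_pow_eq_pow_val]
    rw [h3]
    exact mulVec_mem_closedLat _ hv
  rw [h1, Matrix.neg_mulVec]
  refine neg_mem ?_
  rw [aeval_eq_sum_range, Matrix.sum_mulVec]
  refine sum_mem fun i _ => ?_
  rw [Matrix.smul_mulVec]
  exact smul_mem_openLat (huni i) (h2 i)

lemma cocycle_pow (c : G → Fin n → L)
    (hcoc : ∀ g h, c (g * h) = c g + (ρ g : Matrix (Fin n) (Fin n) L) *ᵥ c h) (g : G) (k : ℕ) :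
    c (g ^ k) = (∑ i ∈ Finset.range k, (ρ g : Matrix (Fin n) (Fin n) L) ^ i) *ᵥ c g := by
  induction k with
  | zero =>
    have h1 := hcoc 1 1
    rw [mul_one, map_one] at h1
    simp only [Units.val_one, Matrix.one_mulVec] at h1
    have h2 : c 1 = 0 := by simpa using h1
    simp [h2]
  | succ k ih =>
    rw [pow_succ, hcoc, ih, Finset.sum_range_succ, Matrix.add_mulVec, map_pow,
      Units.val_pow_eq_pow_val]

/-- The main estimate. -/
lemma cocycle_pow_mem (h2 : ‖(2 : L)‖ < 1) (c : G → Fin n → L)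
    (hcoc : ∀ g h, c (g * h) = c g + (ρ g : Matrix (Fin n) (Fin n) L) *ᵥ c h) (g : G)
    (huni : ∀ i, ‖((ρ g : Matrix (Fin n) (Fin n) L).charpoly - (X - 1) ^ n).coeff i‖ < 1)
    (hc : c g ∈ closedLat ρ M hM) : c (g ^ 2 ^ n) ∈ openLat ρ M hM := by
  obtain ⟨R, hR⟩ := exists_geom_eq n
  set A : Matrix (Fin n) (Fin n) L := (ρ g).val with hA
  have hAo : ∀ v ∈ openLat ρ M hM, A *ᵥ v ∈ openLat ρ M hM := fun v hv =>
    mulVec_mem_openLat g hv
  have hAc : ∀ v ∈ closedLat ρ M hM, A *ᵥ v ∈ closedLat ρ M hM := fun v hv =>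
    mulVec_mem_closedLat g hv
  have h3 : (∑ i ∈ Finset.range (2 ^ n), A ^ i) =
      (A - 1) ^ (2 ^ n - 1) + (2 : L) • aeval A R := by
    have := congrArg (aeval A) hR
    simp only [map_sum, map_pow, aeval_X, map_add, map_sub, map_one, map_mul, aeval_C] at this
    rw [this]
    congr 1
    rw [eq_intCast, Int.cast_ofNat, two_mul, two_smul]
  rw [cocycle_pow c hcoc, ← hA, h3, Matrix.add_mulVec]
  refine add_mem ?_ ?_
  · have h4 : 2 ^ n - 1 = (2 ^ n - 1 - n) + n := by
      have : n < 2 ^ n := Nat.lt_two_pow_self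
      omega
    rw [h4, pow_add, ← Matrix.mulVec_mulVec]
    have h5 := aeval_mem (openLat ρ M hM) A hAo ((X - 1) ^ (2 ^ n - 1 - n))
      (sub_one_pow_mem g huni hc)
    simpa only [map_pow, map_sub, aeval_X, map_one] using h5
  · rw [Matrix.smul_mulVec]
    exact smul_mem_openLat h2 (aeval_mem _ A hAc R hc)

end

/-- A proper open subgroup of a compact group containing all `2 ^ n`-th powers lies in an open
subgroup of index two. -/
lemma exists_index_two_of_pow {G : Type*} [Group G] [TopologicalSpace G] [IsTopologicalGroup G]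
    [CompactSpace G] (U : Subgroup G) (hU : IsOpen (U : Set G)) (hne : U ≠ ⊤) (n : ℕ)
    (hpow : ∀ g : G, g ^ 2 ^ n ∈ U) :
    ∃ K : Subgroup G, IsOpen (K : Set G) ∧ K.index = 2 ∧ U ≤ K := by
  have : Fact (Nat.Prime 2) := ⟨Nat.prime_two⟩
  have hfin : Finite (G ⧸ U) := U.quotient_finite_of_isOpen hU
  have hfi : U.FiniteIndex := Subgroup.finiteIndex_of_finite_quotient
  set V := U.normalCore with hV
  have hVfi : V.FiniteIndex := inferInstance
  have hVU : V ≤ U := U.normalCore_le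
  have hQ : Finite (G ⧸ V) := Subgroup.finite_quotient_of_finiteIndex
  have hp : IsPGroup 2 (G ⧸ V) := by
    intro q
    obtain ⟨g, rfl⟩ := QuotientGroup.mk_surjective q
    refine ⟨n, ?_⟩
    rw [← QuotientGroup.mk_pow, QuotientGroup.eq_one_iff]
    intro x
    rw [← conj_pow]
    exact hpow _
  obtain ⟨N, hN⟩ := hp.exists_card_eq
  set U' := U.map (QuotientGroup.mk' V) with hU'
  have hU'top : U' ≠ ⊤ := by
    intro h
    apply hne
    have h1 : U = U'.comap (QuotientGroup.mk' V) := by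
      rw [hU', QuotientGroup.comap_map_mk']
      exact (sup_eq_right.mpr hVU).symm
    rw [h1, h, Subgroup.comap_top]
  obtain ⟨a, ha⟩ := (hp.to_subgroup U').exists_card_eq
  have haN : a < N := by
    have h1 : Nat.card U' < Nat.card (G ⧸ V) := by
      by_contra hcon
      exact hU'top (Subgroup.eq_top_of_le_card U' (not_lt.mp hcon))
    rw [ha, hN] at h1
    exact (Nat.pow_lt_pow_iff_right (by norm_num)).mp h1
  obtain ⟨K', hK'1, hK'2⟩ := Sylow.exists_subgroup_card_pow_prime_le 2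
    (n := a) (m := N - 1) (by rw [hN]; exact pow_dvd_pow _ (Nat.sub_le _ _)) U' ha (by omega)
  have hidx : K'.index = 2 := by
    have h1 := K'.card_mul_index
    rw [hK'1, hN] at h1
    have h2 : 2 ^ N = 2 ^ (N - 1) * 2 := by
      rw [← pow_succ]
      congr 1
      omega
    rw [h2] at h1
    exact Nat.eq_of_mul_eq_mul_left (by positivity) h1
  have hle : U ≤ K'.comap (QuotientGroup.mk' V) := by
    rw [← Subgroup.map_le_iff_le_comap]
    exact hK'2
  refine ⟨K'.comap (QuotientGroup.mk' V), Subgroup.isOpen_mono hle hU, ?_, hle⟩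
  rw [Subgroup.index_comap_of_surjective _ (QuotientGroup.mk'_surjective V), hidx]

/-- A non-zero cocycle with values in a residually unipotent representation vanishes only inside
some open subgroup of index two. -/
theorem exists_index_two {G : Type*} [Group G] [TopologicalSpace G] [IsTopologicalGroup G]
    [CompactSpace G] {L : Type*} [NormedField L] [IsUltrametricDist L] (h2 : ‖(2 : L)‖ < 1)
    {n : ℕ} (ρ : G →* Matrix.GeneralLinearGroup (Fin n) L) (hρ : Continuous ρ)
    (huni : ∀ g i, ‖((ρ g : Matrix (Fin n) (Fin n) L).charpoly - (X - 1) ^ n).coeff i‖ < 1)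
    (c : G → Fin n → L) (hc : Continuous c)
    (hcoc : ∀ g h, c (g * h) = c g + (ρ g : Matrix (Fin n) (Fin n) L) *ᵥ c h)
    (hne : ∃ g, c g ≠ 0) :
    ∃ K : Subgroup G, IsOpen (K : Set G) ∧ K.index = 2 ∧ ∀ g, c g = 0 → g ∈ K := by
  set f : G × G → ℝ := fun x => ‖(ρ x.1 : Matrix (Fin n) (Fin n) L) *ᵥ c x.2‖ with hf
  have hfc : Continuous f := by
    refine Continuous.norm ?_
    refine Continuous.matrix_mulVec ?_ (hc.comp continuous_snd)
    exact Units.continuous_val.comp (hρ.comp continuous_fst)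
  obtain ⟨x, -, hx⟩ := isCompact_univ.exists_isMaxOn (Set.univ_nonempty (α := G × G))
    hfc.continuousOn
  set M := f x with hMdef
  have hmax : ∀ y, f y ≤ M := fun y => hx (Set.mem_univ y)
  have hM : 0 < M := by
    obtain ⟨g, hg⟩ := hne
    have h1 := hmax (1, g)
    have h3 : f (1, g) = ‖c g‖ := by simp [hf]
    rw [h3] at h1
    exact (norm_pos_iff.mpr hg).trans_le h1
  have hcl : ∀ g, c g ∈ closedLat ρ M hM := fun g h => hmax (h, g)
  have hone : c 1 = 0 := by
    have h1 := hcoc 1 1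
    rw [mul_one, map_one] at h1
    simp only [Units.val_one, Matrix.one_mulVec] at h1
    simpa using h1
  let U : Subgroup G :=
    { carrier := {g | c g ∈ openLat ρ M hM}
      mul_mem' := fun {a b} ha hb => by
        rw [Set.mem_setOf_eq, hcoc]
        exact add_mem ha (mulVec_mem_openLat a hb)
      one_mem' := by
        rw [Set.mem_setOf_eq, hone]
        exact zero_mem _
      inv_mem' := fun {a} ha => by
        have h1 := hcoc a⁻¹ a
        rw [inv_mul_cancel, hone] at h1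
        have h3 : c a⁻¹ = - ((ρ a⁻¹ : Matrix (Fin n) (Fin n) L) *ᵥ c a) :=
          eq_neg_of_add_eq_zero_left h1.symm
        rw [Set.mem_setOf_eq, h3]
        exact neg_mem (mulVec_mem_openLat _ ha) }
  have hmem : ∀ g, g ∈ U ↔ c g ∈ openLat ρ M hM := fun g => Iff.rfl
  have hUopen : IsOpen (U : Set G) := by
    have h1 : (U : Set G) = (Prod.snd '' {y : G × G | M ≤ f y})ᶜ := by
      ext g
      rw [SetLike.mem_coe, hmem, mem_openLat]
      simp only [Set.mem_compl_iff, Set.mem_image, Set.mem_setOf_eq, Prod.exists,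
        exists_eq_right, not_exists, not_le, hf]
    rw [h1, isOpen_compl_iff]
    exact isClosedMap_snd_of_compactSpace _ (isClosed_le continuous_const hfc)
  have hUne : U ≠ ⊤ := by
    intro h
    have h1 : x.2 ∈ U := h ▸ Subgroup.mem_top _
    exact lt_irrefl M ((hmem _).mp h1 x.1)
  obtain ⟨K, hK1, hK2, hK3⟩ := exists_index_two_of_pow U hUopen hUne n
    (fun g => (hmem _).mpr (cocycle_pow_mem h2 c hcoc g (huni g) (hcl g)))
  refine ⟨K, hK1, hK2, fun g hg => hK3 ?_⟩
  rw [hmem, hg]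
  exact zero_mem _

end Pool.Agent.Lib.MP_7c08ba_nt
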