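import Mathlib
import Pool.Agent.Lib.MP_7c08ba_nt.Norm
import Pool.Agent.Lib.MP_7c08ba_nt.Split
import Pool.Agent.Lib.MP_7c08ba_nt.Arith
import Pool.Agent.Lib.MP_7c08ba_nt.Defs

set_option autoImplicit false

/-!
Selmer classes of residually unipotent representations over `ℚ(√-q)`, `q ≡ 7 (mod 16)`.
-/

namespace Pool.Agent.Lib.MP_7c08ba_nt

open NumberField Matrix IsDedekindDomain
open scoped Pointwise

lemma smul_eq_of_decomp {F : Type} [Field F] {P : Ideal (AllInt F)} {g : AbsGal F}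
    (hg : g • P = P) : g ∈ decomp F P := by
  intro x
  have h1 : g • x ∈ g • P ↔ x ∈ P := Ideal.smul_mem_pointwise_smul_iff
  rwa [hg] at h1

/-- Primes of the ring of all algebraic integers above a given prime. -/
lemma exists_prime_over {F : Type} [Field F] [NumberField F] (v : HeightOneSpectrum (𝓞 F)) :
    ∃ P : Ideal (AllInt F), P.IsPrime ∧
      ∀ x : 𝓞 F, x ∈ v.asIdeal ↔ algebraMap (𝓞 F) (AllInt F) x ∈ P := by
  have := v.isPrime
  have : Algebra.IsIntegral (𝓞 F) (AllInt F) :=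
    ⟨fun x => (RingOfIntegers.isIntegral x).tower_top⟩
  obtain ⟨Q, hQ1, hQ2⟩ := Ideal.exists_ideal_over_prime_of_isIntegral_of_isDomain
    (S := AllInt F) v.asIdeal (by
      rw [(RingHom.injective_iff_ker_eq_bot _).mp
        (FaithfulSMul.algebraMap_injective (𝓞 F) (AllInt F))]
      exact bot_le)
  exact ⟨Q, hQ1, fun x => by rw [← hQ2]; rfl⟩

/-- Every open subgroup of index two contains neither the decomposition group nor all the inertia
groups. -/
theorem no_index_two {q : ℕ} (hq : q.Prime) (h16 : q % 16 = 7) {F : Type} [Field F] [NumberField F]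
    (hF : Module.finrank ℚ F = 2) {s : F} (hs : s ^ 2 = -(q : F)) (j : F →+* ℚ_[2])
    (P₀ : Ideal (AllInt F)) (hP₀ : P₀.IsPrime)
    (hP₀j : ∀ x : 𝓞 F, algebraMap (𝓞 F) (AllInt F) x ∈ P₀ ↔ ‖j x‖ < 1)
    (K : Subgroup (AbsGal F)) (hK : IsOpen (K : Set (AbsGal F))) (hidx : K.index = 2)
    (hD : decomp F P₀ ≤ K)
    (hI : ∀ v : HeightOneSpectrum (𝓞 F), (2 : 𝓞 F) ∉ v.asIdeal →
      ∃ P : Ideal (AllInt F), P.IsPrime ∧
        (∀ x : 𝓞 F, x ∈ v.asIdeal ↔ algebraMap (𝓞 F) (AllInt F) x ∈ P) ∧ inert F P ≤ K) :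
    False := by
  have hKc : IsClosed (K : Set (AbsGal F)) := K.isClosed_of_isOpen hK
  obtain ⟨y, u, hy0, hyu, hyK, hyn, g₀, hg₀⟩ := exists_sqrt K hK hidx
  have hu : IsSquare u := by
    apply isSquare_of_local hq.pos hF hs hq h16 j
    · intro v hv
      by_contra hcon
      obtain ⟨P, hPp, hPl, hPI⟩ := hI v hv
      obtain ⟨g, hg, hgK⟩ := exists_inertia_not_mem hidx hy0 hyu hyK hyn v hcon P hPl hg₀ hKc
      exact hgK (hPI hg)
    · obtain ⟨t, m, b, hb, ht, hm, htm⟩ := exists_split hidx hy0 hyu hyK hyn P₀ hg₀ hKc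
        (fun g hg => hD (smul_eq_of_decomp hg))
      rw [hP₀j, not_lt] at ht
      rw [hP₀j] at hm
      obtain ⟨r, hr⟩ := isSquare_of_split ht hm
      refine ⟨r / j b, ?_⟩
      have hjb : j b ≠ 0 := (map_ne_zero j).mpr hb
      have h1 := congrArg j htm
      rw [map_sub, map_pow, map_mul, map_mul, map_pow, map_ofNat, hr] at h1
      field_simp
      rw [← sq] at h1
      linear_combination (-1 : ℚ_[2]) * h1
  obtain ⟨t, ht⟩ := hu
  have h1 : (y - algebraMap F _ t) * (y + algebraMap F _ t) = 0 := by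
    have h2 : y ^ 2 = algebraMap F (AlgebraicClosure F) t ^ 2 := by
      rw [hyu, ht, map_mul, sq]
    linear_combination h2
  have h2 : g₀ y = y := by
    rcases mul_eq_zero.mp h1 with h | h
    · rw [sub_eq_zero.mp h, AlgEquiv.commutes]
    · rw [eq_neg_of_add_eq_zero_left h, map_neg, AlgEquiv.commutes]
  have h3 := hyn g₀ hg₀
  rw [h2] at h3
  apply hy0
  have h4 : (2 : AlgebraicClosure F) * y = 0 := by linear_combination h3
  exact (mul_eq_zero.mp h4).resolve_left two_ne_zero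

section

variable {F : Type} [Field F] {L : Type} [NormedField L] {n : ℕ}

lemma mem_cocycles {ρ : AbsGal F →* Matrix.GeneralLinearGroup (Fin n) L}
    {c : AbsGal F → Fin n → L} : c ∈ cocycles ρ ↔ Continuous c ∧
      ∀ g h, c (g * h) = c g + (ρ g : Matrix (Fin n) (Fin n) L) *ᵥ c h := Iff.rfl

lemma mem_coboundOn {ρ : AbsGal F →* Matrix.GeneralLinearGroup (Fin n) L}
    {H : Subgroup (AbsGal F)} {c : AbsGal F → Fin n → L} : c ∈ coboundOn ρ H ↔
      ∃ x : Fin n → L, ∀ g ∈ H, c g = (ρ g : Matrix (Fin n) (Fin n) L) *ᵥ x - x := Iff.rfl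

lemma mem_selmer {ρ : AbsGal F →* Matrix.GeneralLinearGroup (Fin n) L} {P₀ : Ideal (AllInt F)}
    {c : AbsGal F → Fin n → L} : c ∈ selmer ρ P₀ ↔ c ∈ cocycles ρ ∧
      c ∈ coboundOn ρ (decomp F P₀) ∧
      ∀ P : Ideal (AllInt F), P.IsPrime → (2 : AllInt F) ∉ P → c ∈ coboundOn ρ (inert F P) := by
  unfold selmer
  rw [Submodule.mem_inf, Submodule.mem_inf, Submodule.mem_iInf]
  constructor
  · rintro ⟨⟨h1, h2⟩, h3⟩
    exact ⟨h1, h2, fun P h4 h5 => h3 ⟨P, h4, h5⟩⟩
  · rintro ⟨h1, h2, h3⟩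
    exact ⟨⟨h1, h2⟩, fun P => h3 P.1 P.2.1 P.2.2⟩

/-- Global coboundaries are continuous cocycles. -/
lemma cobound_mem_cocycles {ρ : AbsGal F →* Matrix.GeneralLinearGroup (Fin n) L}
    (hρ : Continuous ρ) (x : Fin n → L) :
    (fun g => (ρ g : Matrix (Fin n) (Fin n) L) *ᵥ x - x) ∈ cocycles ρ := by
  refine ⟨?_, fun g h => ?_⟩
  · exact (Continuous.matrix_mulVec (Units.continuous_val.comp hρ) continuous_const).sub
      continuous_const
  · simp only
    rw [map_mul, Units.val_mul, ← Matrix.mulVec_mulVec, Matrix.mulVec_sub]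
    abel

/-- The coboundary map on a subgroup. -/
noncomputable def delta (ρ : AbsGal F →* Matrix.GeneralLinearGroup (Fin n) L) (H : Subgroup (AbsGal F)) :
    (Fin n → L) →ₗ[L] (H → Fin n → L) where
  toFun x h := (ρ h : Matrix (Fin n) (Fin n) L) *ᵥ x - x
  map_add' x y := by
    funext h
    simp only [Pi.add_apply, Matrix.mulVec_add]
    abel
  map_smul' a x := by
    funext h
    simp only [Pi.smul_apply, Matrix.mulVec_smul, smul_sub, RingHom.id_apply]

lemma ker_delta (ρ : AbsGal F →* Matrix.GeneralLinearGroup (Fin n) L) (H : Subgroup (AbsGal F)) :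
    LinearMap.ker (delta ρ H) = invariants ρ H := by
  ext x
  rw [LinearMap.mem_ker]
  constructor
  · intro h g hg
    have := congrFun h ⟨g, hg⟩
    exact sub_eq_zero.mp this
  · intro h
    funext g
    exact sub_eq_zero.mpr (h g.1 g.2)

lemma finrank_range_delta (ρ : AbsGal F →* Matrix.GeneralLinearGroup (Fin n) L)
    (H : Subgroup (AbsGal F)) : Module.finrank L (LinearMap.range (delta ρ H)) =
      n - Module.finrank L (invariants ρ H) := by
  have h := (delta ρ H).finrank_range_add_finrank_ker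
  rw [ker_delta, Module.finrank_fin_fun] at h
  omega

end

/-- The kernel of restriction. -/
theorem eq_zero_of_vanishing {q : ℕ} (hq : q.Prime) (h16 : q % 16 = 7) {F : Type} [Field F]
    [NumberField F] (hF : Module.finrank ℚ F = 2) {s : F} (hs : s ^ 2 = -(q : F))
    (j : F →+* ℚ_[2]) {L : Type} [NormedField L] [IsUltrametricDist L] (hL : ‖(2 : L)‖ < 1)
    {n : ℕ} {ρ : AbsGal F →* Matrix.GeneralLinearGroup (Fin n) L} (hρ : Continuous ρ)
    (hres : ResUnipotent ρ) {c : AbsGal F → Fin n → L} (hc : c ∈ cocycles ρ)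
    (P₀ : Ideal (AllInt F)) (hP₀ : P₀.IsPrime)
    (hP₀j : ∀ x : 𝓞 F, algebraMap (𝓞 F) (AllInt F) x ∈ P₀ ↔ ‖j x‖ < 1)
    (hD : ∀ g ∈ decomp F P₀, c g = 0)
    (hI : ∀ v : HeightOneSpectrum (𝓞 F), (2 : 𝓞 F) ∉ v.asIdeal →
      ∃ P : Ideal (AllInt F), P.IsPrime ∧
        (∀ x : 𝓞 F, x ∈ v.asIdeal ↔ algebraMap (𝓞 F) (AllInt F) x ∈ P) ∧
        ∀ g ∈ inert F P, c g = 0) : c = 0 := by
  obtain ⟨hcc, hcoc⟩ := hc
  by_cases hne : ∃ g, c g ≠ 0
  · exfalso
    obtain ⟨K, hK1, hK2, hK3⟩ := exists_index_two hL ρ hρ hres c hcc hcoc hne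
    refine no_index_two hq h16 hF hs j P₀ hP₀ hP₀j K hK1 hK2 (fun g hg => hK3 g (hD g hg)) ?_
    intro v hv
    obtain ⟨P, hP1, hP2, hP3⟩ := hI v hv
    exact ⟨P, hP1, hP2, fun g hg => hK3 g (hP3 g hg)⟩
  · push Not at hne
    funext g
    exact hne g

/-- The main theorem. -/
theorem selmer_bound {q : ℕ} (hq : q.Prime) (h16 : q % 16 = 7) {F : Type} [Field F]
    [NumberField F] (hF : Module.finrank ℚ F = 2) {s : F} (hs : s ^ 2 = -(q : F))
    (j : F →+* ℚ_[2]) {L : Type} [NormedField L] [IsUltrametricDist L] (hL : ‖(2 : L)‖ < 1)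
    {n : ℕ} {ρ : AbsGal F →* Matrix.GeneralLinearGroup (Fin n) L} (hρ : Continuous ρ)
    (hres : ResUnipotent ρ) (T : Finset (Ideal (AllInt F)))
    (hT : ∀ Q ∈ T, Q.IsPrime ∧ (2 : AllInt F) ∉ Q)
    (hram : ∀ P : Ideal (AllInt F), P.IsPrime → (2 : AllInt F) ∉ P →
      (∀ g ∈ inert F P, ρ g = 1) ∨
      ∃ Q ∈ T, ∀ x : 𝓞 F, algebraMap (𝓞 F) (AllInt F) x ∈ P ↔ algebraMap (𝓞 F) (AllInt F) x ∈ Q)
    (P₀ : Ideal (AllInt F)) (hP₀ : P₀.IsPrime)
    (hP₀j : ∀ x : 𝓞 F, algebraMap (𝓞 F) (AllInt F) x ∈ P₀ ↔ ‖j x‖ < 1) :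
    Module.Finite L (selmer ρ P₀ ⧸ (coboundOn ρ ⊤).submoduleOf (selmer ρ P₀)) ∧
    Module.finrank L (selmer ρ P₀ ⧸ (coboundOn ρ ⊤).submoduleOf (selmer ρ P₀)) ≤
      ∑ Q ∈ T, (n - Module.finrank L (invariants ρ (inert F Q))) := by
  classical
  -- the Selmer cocycles vanishing on the decomposition group
  let Z : Submodule L (selmer ρ P₀) :=
    { carrier := {c | ∀ g ∈ decomp F P₀, (c : AbsGal F → Fin n → L) g = 0}
      zero_mem' := fun g _ => rfl
      add_mem' := fun {a b} ha hb g hg => by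
        have h1 := ha g hg
        have h2 := hb g hg
        change (a : AbsGal F → Fin n → L) g + (b : AbsGal F → Fin n → L) g = 0
        rw [h1, h2, add_zero]
      smul_mem' := fun r a ha g hg => by
        change r • (a : AbsGal F → Fin n → L) g = 0
        rw [ha g hg, smul_zero] }
  have hZ : ∀ c : selmer ρ P₀, c ∈ Z ↔ ∀ g ∈ decomp F P₀, (c : AbsGal F → Fin n → L) g = 0 :=
    fun c => Iff.rfl
  -- restriction to the inertia groups
  have hres' : ∀ (c : selmer ρ P₀) (Q : T),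
      (fun h : inert F Q.1 => (c : AbsGal F → Fin n → L) h) ∈
        LinearMap.range (delta ρ (inert F Q.1)) := by
    intro c Q
    obtain ⟨h1, h2, h3⟩ := mem_selmer.mp c.2
    obtain ⟨x, hx⟩ := h3 Q.1 (hT Q.1 Q.2).1 (hT Q.1 Q.2).2
    exact ⟨x, by funext h; exact (hx h.1 h.2).symm⟩
  let Φ : Z →ₗ[L] (∀ Q : T, LinearMap.range (delta ρ (inert F Q.1))) :=
    { toFun := fun c Q => ⟨_, hres' c.1 Q⟩
      map_add' := fun a b => by
        funext Q
        rfl
      map_smul' := fun r a => by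
        funext Q
        rfl }
  have hΦ : Function.Injective Φ := by
    rw [injective_iff_map_eq_zero]
    intro c hc
    apply Subtype.ext
    apply Subtype.ext
    obtain ⟨h1, h2, h3⟩ := mem_selmer.mp c.1.2
    refine eq_zero_of_vanishing hq h16 hF hs j hL hρ hres h1 P₀ hP₀ hP₀j ((hZ _).mp c.2) ?_
    intro v hv
    obtain ⟨P, hP1, hP2⟩ := exists_prime_over v
    have h2P : (2 : AllInt F) ∉ P := by
      intro h
      apply hv
      rw [hP2]
      have h4 : algebraMap (𝓞 F) (AllInt F) 2 = 2 := map_ofNat _ 2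
      rw [h4]
      exact h
    rcases hram P hP1 h2P with h4 | ⟨Q, hQ, hQP⟩
    · refine ⟨P, hP1, hP2, fun g hg => ?_⟩
      obtain ⟨x, hx⟩ := h3 P hP1 h2P
      rw [hx g hg, h4 g hg, Units.val_one, Matrix.one_mulVec, sub_self]
    · refine ⟨Q, (hT Q hQ).1, fun x => (hP2 x).trans (hQP x), fun g hg => ?_⟩
      have h5 := congrFun hc ⟨Q, hQ⟩
      have h6 := congrArg Subtype.val h5
      exact congrFun h6 ⟨g, hg⟩
  -- the dimension count
  have hfin : Module.Finite L Z := Module.Finite.of_injective Φ hΦ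
  have hle : Module.finrank L Z ≤ ∑ Q ∈ T, (n - Module.finrank L (invariants ρ (inert F Q))) := by
    refine (LinearMap.finrank_le_finrank_of_injective hΦ).trans ?_
    rw [Module.finrank_pi_fintype]
    simp only [finrank_range_delta]
    exact (Finset.sum_coe_sort T
      (fun Q => n - Module.finrank L (invariants ρ (inert F Q)))).le
  let Ψ : Z →ₗ[L] (selmer ρ P₀ ⧸ (coboundOn ρ ⊤).submoduleOf (selmer ρ P₀)) :=
    (Submodule.mkQ _).comp Z.subtype
  have hΨ : Function.Surjective Ψ := by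
    intro y
    obtain ⟨c, rfl⟩ := Submodule.mkQ_surjective _ y
    obtain ⟨h1, ⟨x, hx⟩, h3⟩ := mem_selmer.mp c.2
    set b : AbsGal F → Fin n → L :=
      fun g => (ρ g : Matrix (Fin n) (Fin n) L) *ᵥ x - x with hb
    have hbs : b ∈ selmer ρ P₀ :=
      mem_selmer.mpr ⟨cobound_mem_cocycles hρ x, ⟨x, fun g _ => rfl⟩,
        fun P _ _ => ⟨x, fun g _ => rfl⟩⟩
    have hbc : c - ⟨b, hbs⟩ ∈ Z := by
      rw [hZ]
      intro g hg
      change (c : AbsGal F → Fin n → L) g - b g = 0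
      rw [hx g hg, sub_self]
    refine ⟨⟨c - ⟨b, hbs⟩, hbc⟩, ?_⟩
    change (Submodule.mkQ _) (c - ⟨b, hbs⟩) = _
    rw [map_sub, sub_eq_self, Submodule.mkQ_apply, Submodule.Quotient.mk_eq_zero]
    exact ⟨x, fun g _ => rfl⟩
  exact ⟨Module.Finite.of_surjective Ψ hΨ,
    (LinearMap.finrank_le_finrank_of_surjective hΨ).trans hle⟩

/-- The main theorem in terms of the rank. -/
theorem selmerRank_le {q : ℕ} (hq : q.Prime) (h16 : q % 16 = 7) {F : Type} [Field F]
    [NumberField F] (hF : Module.finrank ℚ F = 2) {s : F} (hs : s ^ 2 = -(q : F))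
    (j : F →+* ℚ_[2]) {L : Type} [NormedField L] [IsUltrametricDist L] (hL : ‖(2 : L)‖ < 1)
    {n : ℕ} {ρ : AbsGal F →* Matrix.GeneralLinearGroup (Fin n) L} (hρ : Continuous ρ)
    (hres : ResUnipotent ρ) {T : Finset (Ideal (AllInt F))} (hT : RamifiedOver ρ T)
    {P₀ : Ideal (AllInt F)} (hP₀ : LiesAt j P₀) :
    selmerRank ρ P₀ ≤ ((∑ Q ∈ T, inertiaCodim ρ Q : ℕ) : Cardinal) := by
  obtain ⟨h1, h2⟩ := selmer_bound hq h16 hF hs j hL hρ hres T hT.1 hT.2 P₀ hP₀.1 hP₀.2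
  unfold selmerRank
  rw [← Module.finrank_eq_rank]
  exact_mod_cast h2

end Pool.Agent.Lib.MP_7c08ba_nt
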